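import Pool.Agent.Lib.MP_640417_ag.FC.SpecCore

/-!
# FE core, module CoefExact: exact value of the coefficient at `k V`
-/

noncomputable section

open Finset

open scoped Classical

namespace Pool.Agent.FC

/-- a shift does not change the sum over a period -/
private theorem CoefExact_shift (n : ℕ) (G : ℕ → ℂ) (hG : ∀ r, G (r + n) = G r) (j : ℕ) :
    ∑ r ∈ range n, G (r + j) = ∑ r ∈ range n, G r := by
  induction j with
  | zero => rfl
  | succ j ih =>
    rw [← ih]
    have h1 := Finset.sum_range_succ' (fun r => G (r + j)) n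
    have h2 := Finset.sum_range_succ (fun r => G (r + j)) n
    rw [h2] at h1
    have h3 : G (n + j) = G (0 + j) := by
      rw [zero_add, add_comm n j]
      exact hG j
    have h4 : ∑ r ∈ range n, G (r + (j + 1)) = ∑ r ∈ range n, G (r + 1 + j) :=
      Finset.sum_congr rfl fun r _ => by rw [add_assoc, add_comm 1 j]
    rw [h4]
    linear_combination -h1 + h3

/-- the `n`-th multiple of `k / n` -/
private theorem CoefExact_nsmul (n : ℕ) (hn : 0 < n) (a : ℤ) :
    n • (((a : ℝ) / n : ℝ) : UnitAddCircle) = 0 := by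
  have hn0 : (n : ℝ) ≠ 0 := by exact_mod_cast hn.ne'
  rw [← AddCircle.coe_nsmul, AddCircle.coe_eq_zero_iff]
  refine ⟨a, ?_⟩
  rw [nsmul_eq_mul, zsmul_eq_mul, mul_one]
  field_simp

theorem t_CoefExact (h1 : S_SawCoset) (h2 : S_GeomDer) (h3 : S_Reindex) : S_CoefExact := by
  intro n hn V x hV k hk
  have hn0 : (n : ℝ) ≠ 0 := by exact_mod_cast hn.ne'
  have hnc : (n : ℂ) ≠ 0 := by exact_mod_cast hn.ne'
  obtain ⟨z, j, hz0, hz1, hj, hx, hsw⟩ := h1 n hn x
  refine ⟨z, hz0, hz1, ?_⟩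
  set w : ℂ := ee ((-(k : ℝ) / n : ℝ) : UnitAddCircle) with hw
  have hwn : w ^ n = 1 := by
    rw [hw, ← ee_nsmul]
    have h4 : (-(k : ℝ) / n : ℝ) = (((-k : ℤ) : ℝ) / n : ℝ) := by push_cast; ring
    rw [h4, CoefExact_nsmul n hn, ee_zero]
  have hw1 : w ≠ 1 := by
    intro h
    rw [hw, ee_eq_one_iff, AddCircle.coe_eq_zero_iff] at h
    obtain ⟨m, hm⟩ := h
    apply hk
    refine ⟨-m, ?_⟩
    have h5 : (m : ℝ) = -(k : ℝ) / n := by
      rw [← hm, zsmul_eq_mul, mul_one]
    have h6 : (k : ℝ) = n * (-m : ℝ) := by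
      rw [h5]
      field_simp
    exact_mod_cast h6
  have hwr : ∀ r : ℕ, ee (-(k • (((r : ℝ) / n : ℝ) : UnitAddCircle))) = w ^ r := by
    intro r
    rw [hw, ← ee_nsmul, ← AddCircle.coe_nsmul, ← AddCircle.coe_zsmul, ← AddCircle.coe_neg]
    congr 2
    rw [nsmul_eq_mul, zsmul_eq_mul]
    ring
  -- the sum over the multiples
  have h4 : ∑ s ∈ range n, (sw (x + s • V) : ℂ) * ee (-(s • (k • V))) =
      ∑ r ∈ range n, (sw (x + (((r : ℝ) / n : ℝ) : UnitAddCircle)) : ℂ) * w ^ r := by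
    have h5 := h3 n hn V hV (fun y => (sw (x + y) : ℂ) * ee (-(k • y)))
    have h6 : ∑ s ∈ range n, (sw (x + s • V) : ℂ) * ee (-(s • (k • V))) =
        ∑ s ∈ range n, (sw (x + s • V) : ℂ) * ee (-(k • (s • V))) :=
      Finset.sum_congr rfl fun s _ => by rw [smul_comm s k V]
    rw [h6]
    refine h5.trans (Finset.sum_congr rfl fun r _ => ?_)
    rw [hwr]
  -- shift
  have h7 : ∑ r ∈ range n, (sw (x + (((r : ℝ) / n : ℝ) : UnitAddCircle)) : ℂ) * w ^ r =
      (w ^ j)⁻¹ * ∑ r ∈ range n, (sw ((z + (r : ℝ) / n : ℝ) : UnitAddCircle) : ℂ) * w ^ r := by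
    have hwj : w ^ j ≠ 0 := pow_ne_zero _ (by
      rw [hw]
      exact ee_ne_zero _)
    have h8 := CoefExact_shift n
      (fun r => (sw ((z + (r : ℝ) / n : ℝ) : UnitAddCircle) : ℂ) * w ^ r) (fun r => by
        have h9 : ((z + ((r + n : ℕ) : ℝ) / n : ℝ) : UnitAddCircle) =
            ((z + (r : ℝ) / n : ℝ) : UnitAddCircle) := by
          have h10 : (z + ((r + n : ℕ) : ℝ) / n : ℝ) = (z + (r : ℝ) / n) + 1 := by
            push_cast
            field_simp
            ring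
          rw [h10]
          exact AddCircle.coe_add_period 1 _
        show (sw ((z + ((r + n : ℕ) : ℝ) / n : ℝ) : UnitAddCircle) : ℂ) * w ^ (r + n) = _
        rw [h9, pow_add, hwn, mul_one]) j
    rw [← h8, Finset.mul_sum]
    refine Finset.sum_congr rfl fun r _ => ?_
    have h9 : x + (((r : ℝ) / n : ℝ) : UnitAddCircle) =
        ((z + ((r + j : ℕ) : ℝ) / n : ℝ) : UnitAddCircle) := by
      rw [hx, ← AddCircle.coe_add]
      congr 1
      push_cast
      ring
    rw [h9, pow_add]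
    field_simp
  -- the values
  have h10 : ∑ r ∈ range n, (sw ((z + (r : ℝ) / n : ℝ) : UnitAddCircle) : ℂ) * w ^ r =
      1 / (w - 1) := by
    have h11 : ∀ r ∈ range n, (sw ((z + (r : ℝ) / n : ℝ) : UnitAddCircle) : ℂ) * w ^ r =
        ((z : ℂ) - 1 / 2) * w ^ r + (1 / n) * ((r : ℂ) * w ^ r) := by
      intro r hr
      rw [hsw r (Finset.mem_range.1 hr)]
      push_cast
      ring
    rw [Finset.sum_congr rfl h11, Finset.sum_add_distrib, ← Finset.mul_sum, ← Finset.mul_sum,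
      h2 n w hwn hw1]
    have h12 : ∑ r ∈ range n, w ^ r = 0 := by
      rw [geom_sum_eq hw1, hwn, sub_self, zero_div]
    have h13 : w - 1 ≠ 0 := sub_ne_zero.2 hw1
    rw [h12, mul_zero, zero_add]
    field_simp
  have h14 : ee (k • (x - (z : UnitAddCircle))) = (w ^ j)⁻¹ := by
    have h15 : x - (z : UnitAddCircle) = (((j : ℝ) / n : ℝ) : UnitAddCircle) := by
      rw [hx, AddCircle.coe_add, add_sub_cancel_left]
    rw [h15, ← hwr j, ee_neg, inv_inv]
  have h13 : w - 1 ≠ 0 := sub_ne_zero.2 hw1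
  rw [cf, h4, h7, h10, h14]
  field_simp

end Pool.Agent.FC
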