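import Pool.Agent.Lib.MP_640417_ag.FC.SpecCore

/-!
# FE: the core lemma from `S_Prog`, `S_Step`, `S_Merge`
-/

set_option autoImplicit false

noncomputable section

open Finset

open scoped Classical

namespace Pool.Agent.FC

private lemma CoreAsm_ind (h2 : S_Step) (h3 : S_Merge) (ι : Type) [Fintype ι]
    (x : ι → UnitAddCircle) (N e : ℕ) (i0 : ι) (hN : Fintype.card ι ≤ N)
    (hfin : ∀ i, IsOfFinAddOrder (x i)) (hrel : Rel x)
    (he : (32 * N) ^ N < addOrderOf (e • x i0))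
    (hp : ∀ g : ℕ, 1 ≤ g → g ≤ 2 ^ (N - 1) → ∃ n : ℕ, 0 < n ∧ (∀ i, n • ((g * e) • x i) = 0) ∧
      bad x (g * e) n ≤ 1) :
    ∀ (m : ℕ) (g : ℕ) (c : ι → ι) (w : ι → UnitAddCircle) (K : ι → ℤ),
      St x N e g c w K → (univ.image c).card = m →
      ∃ (C : Finset ι) (K' : ι → ℤ), C.Nonempty ∧ Fam C K' x ∧ ∑ i ∈ C, |K' i| ≤ 2 ^ (N - 1) := by
  intro m
  induction m with
  | zero =>
    intro g c w K _ hc
    exfalso
    have hmem : c i0 ∈ univ.image c := mem_image_of_mem c (mem_univ i0)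
    rw [card_eq_zero] at hc
    rw [hc] at hmem
    exact absurd hmem (notMem_empty _)
  | succ m ih =>
    intro g c w K hst hc
    rcases h2 ι x N e g c w K i0 hN hfin hrel he hp hst with h | h
    · exact h
    · obtain ⟨p, q, l, k, hp1, hq1, hpq, hl1, hl2, hk0, hk1, hlk⟩ := h
      obtain ⟨g', c', w', K', hst', hc'⟩ :=
        h3 ι x N e g c w K p q l k hN hst hp1 hq1 hpq hl1 hl2 hk0 hk1 hlk
      exact ih g' c' w' K' hst' (by omega)

private lemma CoreAsm_init (ι : Type) [Fintype ι] (x : ι → UnitAddCircle) (N e : ℕ) :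
    St x N e 1 id (fun i => e • x i) (fun _ => 1) := by
  have hD : ∀ a : ι, DD (id : ι → ι) (fun _ => (1 : ℤ)) a = 1 := by
    intro a
    unfold DD
    rw [sum_const, smul_eq_mul]
    have : (univ.filter fun i : ι => id i = a) = {a} := by
      ext i
      simp
    rw [this]
    simp
  refine ⟨one_pos, fun _ => one_ne_zero, ?_, ?_, ?_⟩
  · intro i
    simp
  · intro n hn i
    have := hn i
    simpa using this
  · rw [one_mul, prod_congr rfl fun a _ => hD a, prod_const_one]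
    exact Nat.one_le_two_pow

private lemma CoreAsm_main (h1 : S_Prog) (h2 : S_Step) (h3 : S_Merge) (N : ℕ) (ι : Type)
    [Fintype ι] (x : ι → UnitAddCircle) (hN : Fintype.card ι ≤ N)
    (hfin : ∀ i, IsOfFinAddOrder (x i)) (hrel : Rel x) (hM : ∃ i, MM N • x i ≠ 0) :
    ∃ (C : Finset ι) (K : ι → ℤ), C.Nonempty ∧ Fam C K x ∧ ∑ i ∈ C, |K i| ≤ 2 ^ (N - 1) := by
  obtain ⟨i1, hi1⟩ := hM
  obtain ⟨e, i0, he, hp⟩ := h1 ι x N i1 hfin hN hi1
  exact CoreAsm_ind h2 h3 ι x N e i0 hN hfin hrel he hp _ 1 id (fun i => e • x i) (fun _ => 1)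
    (CoreAsm_init ι x N e) rfl

/-- The core lemma from `S_Prog`, `S_Step`, `S_Merge`. -/
theorem t_CoreAsm : S_CoreAsm := by
  intro h1 h2 h3 N ι _ _ x hN hfin _ hrel hM
  exact CoreAsm_main h1 h2 h3 N ι x hN hfin hrel hM

end Pool.Agent.FC
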