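import Pool.Agent.Lib.MP_640417_ag.FC.SpecCore

/-!
# FE: the cycle lemma (`S_Cyc`)
-/

noncomputable section

open Finset

open scoped Classical

namespace Pool.Agent.FC

private theorem Cyc_step {A : Type} [AddCommGroup A] {x y : A} {l : ℕ} {k : ℤ} (hl : 1 ≤ l)
    (hk : k ≠ 0) (h : l • x = k • y) (hx : IsOfFinAddOrder x) :
    IsOfFinAddOrder y ∧ addOrderOf x ≤ addOrderOf y * l := by
  have ho : 0 < addOrderOf x := hx.addOrderOf_pos
  have hy : IsOfFinAddOrder y := by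
    rw [isOfFinAddOrder_iff_zsmul_eq_zero]
    refine ⟨(addOrderOf x : ℤ) * k, mul_ne_zero (by exact_mod_cast ho.ne') hk, ?_⟩
    rw [mul_smul, ← h, natCast_zsmul, smul_comm, addOrderOf_nsmul_eq_zero, smul_zero]
  refine ⟨hy, ?_⟩
  apply Nat.le_of_dvd (Nat.mul_pos hy.addOrderOf_pos hl)
  rw [addOrderOf_dvd_iff_nsmul_eq_zero, mul_smul, h, smul_comm, addOrderOf_nsmul_eq_zero, smul_zero]

theorem t_Cyc : S_Cyc := by
  intro A ι _ L D w N P T a0 hN hLN hD hP ha0 hfin hTP hT hab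
  by_contra hneg
  have hP1 : 0 < P := by
    rw [← hP]
    exact Finset.prod_pos fun a ha => hD a ha
  have H : ∀ a, ∃ (b : ι) (l : ℕ) (k : ℤ), (a ∈ L → b ∈ L) ∧ (a ∈ L → T ≤ addOrderOf (w a) →
      b ≠ a ∧ 1 ≤ l ∧ l ≤ D a ∧ k ≠ 0 ∧ k.natAbs ≤ 4 * N * D a * D b ∧ l • w a = k • w b) := by
    intro a
    by_cases h : a ∈ L ∧ T ≤ addOrderOf (w a)
    · obtain ⟨b, hb, hba, l, k, h1, h2, h3, h4, h5⟩ := hab a h.1 h.2
      exact ⟨b, l, k, fun _ => hb, fun _ _ => ⟨hba, h1, h2, h3, h4, h5⟩⟩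
    · exact ⟨a, 0, 0, id, fun h1 h2 => absurd ⟨h1, h2⟩ h⟩
  choose f l k hfL hf using H
  obtain ⟨a, ha00, hs⟩ : ∃ a : ℕ → ι, a 0 = a0 ∧ ∀ n, a (n + 1) = f (a n) :=
    ⟨fun n => f^[n] a0, rfl, fun n => Function.iterate_succ_apply' f n a0⟩
  have haL : ∀ n, a n ∈ L := by
    intro n
    induction n with
    | zero => rw [ha00]; exact ha0
    | succ n ih => rw [hs]; exact hfL _ ih
  have hrep : ∃ j, ∃ i, i < j ∧ a i = a j := by
    obtain ⟨x, hx, y, hy, hne, he⟩ := Finset.exists_ne_map_eq_of_card_lt_of_maps_to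
      (s := Finset.range (L.card + 1)) (t := L) (f := a) (by simp) (fun n _ => haL n)
    rcases lt_or_gt_of_ne hne with h | h
    · exact ⟨y, x, h, he⟩
    · exact ⟨x, y, h, he.symm⟩
  obtain ⟨j, ⟨i, hij, hia⟩, hmin⟩ : ∃ j, (∃ i, i < j ∧ a i = a j) ∧
      ∀ t t', t < t' → t' < j → a t ≠ a t' :=
    ⟨Nat.find hrep, Nat.find_spec hrep, fun t t' h1 h2 h3 => Nat.find_min hrep h2 ⟨t, h1, h3⟩⟩
  have hinj : ∀ t ∈ Finset.range j, ∀ t' ∈ Finset.range j, a t = a t' → t = t' := by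
    intro t ht t' ht' h
    by_contra hne
    rcases lt_or_gt_of_ne hne with h1 | h1
    · exact hmin t t' h1 (Finset.mem_range.1 ht') h
    · exact hmin t' t h1 (Finset.mem_range.1 ht) h.symm
  have hjN : j ≤ N := by
    have h1 : ((Finset.range j).image a).card ≤ L.card :=
      Finset.card_le_card (fun x hx => by
        obtain ⟨n, -, rfl⟩ := Finset.mem_image.1 hx
        exact haL n)
    rw [Finset.card_image_of_injOn (fun t ht t' ht' h => hinj t ht t' ht' h),
      Finset.card_range] at h1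
    omega
  have hprod : ∀ s : Finset ℕ, s ⊆ Finset.range j → ∏ t ∈ s, D (a t) ≤ P := by
    intro s hsj
    rw [← hP]
    have h1 : ∏ t ∈ s, D (a t) = ∏ x ∈ s.image a, D x :=
      (Finset.prod_image (fun t ht t' ht' h => hinj t (hsj ht) t' (hsj ht') h)).symm
    rw [h1]
    apply Nat.le_of_dvd (by rw [hP]; exact hP1)
    apply Finset.prod_dvd_prod_of_subset
    intro x hx
    obtain ⟨n, -, rfl⟩ := Finset.mem_image.1 hx
    exact haL n
  have hgood0 : ∀ m, m < j → addOrderOf (w a0) ≤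
      addOrderOf (w (a m)) * ∏ t ∈ Finset.range m, D (a t) → T ≤ addOrderOf (w (a m)) := by
    intro m hm h1
    have h2 : ∏ t ∈ Finset.range m, D (a t) ≤ P :=
      hprod _ (Finset.range_subset_range.2 hm.le)
    have h3 : T * P ≤ addOrderOf (w (a m)) * P :=
      hTP.trans (h1.trans (Nat.mul_le_mul_left _ h2))
    exact Nat.le_of_mul_le_mul_right h3 hP1
  have hord : ∀ m, m < j → IsOfFinAddOrder (w (a m)) ∧ addOrderOf (w a0) ≤
      addOrderOf (w (a m)) * ∏ t ∈ Finset.range m, D (a t) := by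
    intro m
    induction m with
    | zero =>
      intro _
      rw [ha00]
      exact ⟨hfin, by simp⟩
    | succ m ih =>
      intro hm
      obtain ⟨h1, h2⟩ := ih (by omega)
      obtain ⟨-, h4, h5, h6, -, h8⟩ := hf (a m) (haL m) (hgood0 m (by omega) h2)
      obtain ⟨h9, h10⟩ := Cyc_step h4 h6 h8 h1
      rw [hs, Finset.prod_range_succ]
      refine ⟨h9, ?_⟩
      calc addOrderOf (w a0) ≤ addOrderOf (w (a m)) * ∏ t ∈ Finset.range m, D (a t) := h2
        _ ≤ (addOrderOf (w (f (a m))) * D (a m)) * ∏ t ∈ Finset.range m, D (a t) :=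
          Nat.mul_le_mul_right _ (h10.trans (Nat.mul_le_mul_left _ h5))
        _ = addOrderOf (w (f (a m))) * ((∏ t ∈ Finset.range m, D (a t)) * D (a m)) := by ring
  have hgood : ∀ m, m < j → T ≤ addOrderOf (w (a m)) := fun m hm => hgood0 m hm (hord m hm).2
  obtain ⟨n, hn⟩ : ∃ n, j = i + n := ⟨j - i, by omega⟩
  have hn1 : 1 ≤ n := by omega
  have hab' : ∀ t, t < n → 1 ≤ l (a (i + t)) ∧ l (a (i + t)) ≤ D (a (i + t)) ∧
      D (a (i + t + 1)) < (k (a (i + t))).natAbs ∧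
      (k (a (i + t))).natAbs ≤ 4 * N * D (a (i + t)) * D (a (i + t + 1)) ∧
      l (a (i + t)) • w (a (i + t)) = k (a (i + t)) • w (a (i + t + 1)) := by
    intro t ht
    obtain ⟨h3, h4, h5, h6, h7, h8⟩ := hf (a (i + t)) (haL _) (hgood _ (by omega))
    rw [hs]
    refine ⟨h4, h5, ?_, h7, h8⟩
    by_contra hlt
    exact hneg ⟨a (i + t), haL _, f (a (i + t)), hfL _ (haL _), h3.symm, _, _, h4, h5, h6,
      by omega, h8⟩
  have htel : ∀ s, s ≤ n → (∏ t ∈ Finset.range s, l (a (i + t))) • w (a i) =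
      (∏ t ∈ Finset.range s, k (a (i + t))) • w (a (i + s)) := by
    intro s
    induction s with
    | zero => intro _; simp
    | succ s ih =>
      intro hsn
      have h1 := ih (by omega)
      have h2 := (hab' s (by omega)).2.2.2.2
      rw [Finset.prod_range_succ, Finset.prod_range_succ, mul_comm, mul_smul, h1, smul_comm, h2,
        mul_smul]
      rfl
  have hcyc := htel n le_rfl
  rw [← hn, ← hia] at hcyc
  set Λ := ∏ t ∈ Finset.range n, l (a (i + t)) with hΛ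
  set Κ := ∏ t ∈ Finset.range n, k (a (i + t)) with hΚ
  set Δ := ∏ t ∈ Finset.range n, D (a (i + t)) with hΔ
  have hD1 : ∀ t, 1 ≤ D (a t) := fun t => hD _ (haL t)
  have hΔ' : ∏ t ∈ Finset.range n, D (a (i + t + 1)) = Δ := by
    have h1 := Finset.prod_range_succ (fun t => D (a (i + t))) n
    have h2 := Finset.prod_range_succ' (fun t => D (a (i + t))) n
    rw [h1] at h2
    simp only [add_zero, ← hn, ← hia] at h2
    exact (Nat.eq_of_mul_eq_mul_right (hD1 i) h2).symm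
  have hΔP : Δ ≤ P := by
    have h1 : Δ = ∏ t ∈ (Finset.range n).map (addLeftEmbedding i), D (a t) := by
      rw [Finset.prod_map]
      rfl
    rw [h1]
    apply hprod
    intro t ht
    obtain ⟨t', ht', rfl⟩ := Finset.mem_map.1 ht
    have := Finset.mem_range.1 ht'
    exact Finset.mem_range.2 (by simp only [addLeftEmbedding_apply]; omega)
  have hΛΔ : Λ ≤ Δ := Finset.prod_le_prod' fun t ht => (hab' t (Finset.mem_range.1 ht)).2.1
  have hΚabs : Κ.natAbs = ∏ t ∈ Finset.range n, (k (a (i + t))).natAbs := by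
    rw [hΚ]
    exact map_prod Int.natAbsHom _ _
  have hΚΔ : Δ < Κ.natAbs := by
    rw [hΚabs, ← hΔ']
    apply Finset.prod_lt_prod_of_nonempty
    · intro t _
      exact hD1 _
    · intro t ht
      exact (hab' t (Finset.mem_range.1 ht)).2.2.1
    · exact ⟨0, Finset.mem_range.2 (by omega)⟩
  have hΚle : Κ.natAbs ≤ (4 * N) ^ N * P ^ 2 := by
    rw [hΚabs]
    calc ∏ t ∈ Finset.range n, (k (a (i + t))).natAbs
        ≤ ∏ t ∈ Finset.range n, (4 * N * D (a (i + t)) * D (a (i + t + 1))) :=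
          Finset.prod_le_prod' fun t ht => (hab' t (Finset.mem_range.1 ht)).2.2.2.1
      _ = (4 * N) ^ n * Δ * Δ := by
          rw [Finset.prod_mul_distrib, Finset.prod_mul_distrib, hΔ', Finset.prod_const,
            Finset.card_range]
      _ = (4 * N) ^ n * Δ ^ 2 := by ring
      _ ≤ (4 * N) ^ N * P ^ 2 :=
          Nat.mul_le_mul (Nat.pow_le_pow_right (by omega) (by omega)) (Nat.pow_le_pow_left hΔP 2)
  have hzero : ((Λ : ℤ) - Κ) • w (a i) = 0 := by
    rw [sub_smul, natCast_zsmul, hcyc, sub_self]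
  have hdvd := addOrderOf_dvd_iff_zsmul_eq_zero.2 hzero
  have hlt : |(Λ : ℤ) - Κ| < (addOrderOf (w (a i)) : ℤ) := by
    have h1 := hgood i (by omega)
    have h2 : |(Λ : ℤ) - Κ| ≤ (Λ : ℤ) + (Κ.natAbs : ℤ) := by
      rw [Int.natCast_natAbs]
      calc |(Λ : ℤ) - Κ| ≤ |(Λ : ℤ)| + |Κ| := abs_sub _ _
        _ = (Λ : ℤ) + |Κ| := by rw [abs_of_nonneg (by positivity)]
    have h3 : Λ + Κ.natAbs < addOrderOf (w (a i)) := by omega
    have h4 : ((Λ : ℤ) + (Κ.natAbs : ℤ)) < (addOrderOf (w (a i)) : ℤ) := by exact_mod_cast h3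
    exact lt_of_le_of_lt h2 h4
  have heq := Int.eq_zero_of_abs_lt_dvd hdvd hlt
  have h5 : Κ.natAbs = Λ := by
    have : Κ = (Λ : ℤ) := by omega
    rw [this, Int.natAbs_natCast]
  omega

end Pool.Agent.FC
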