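import Pool.Agent.Lib.MP_640417_ag.FC.SpecCore

/-!
# FE core, module Est: the elementary estimate
-/

noncomputable section

open Finset

open scoped Classical

namespace Pool.Agent.FC

/-- second order estimate, nonnegative arguments -/
private theorem Est_pos (σ : ℝ) (hσ : |σ| = 1) {t : ℝ} (ht : 0 ≤ t) :
    ‖Complex.exp (Complex.I * ((σ * t : ℝ) : ℂ)) - 1 - Complex.I * ((σ * t : ℝ) : ℂ)‖ ≤
      t ^ 2 / 2 := by
  have key := image_norm_le_of_norm_deriv_right_le_deriv_boundary (a := 0) (b := t)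
    (f := fun s : ℝ => Complex.exp (Complex.I * ((σ * s : ℝ) : ℂ)) - 1 -
      Complex.I * ((σ * s : ℝ) : ℂ))
    (f' := fun s : ℝ => Complex.exp (Complex.I * ((σ * s : ℝ) : ℂ)) * (Complex.I * (σ : ℂ)) -
      Complex.I * (σ : ℂ))
    (B := fun s => s ^ 2 / 2) (B' := fun s => s) ?_ ?_ ?_ ?_ ?_
  · exact key ⟨ht, le_rfl⟩
  · apply Continuous.continuousOn
    fun_prop
  · intro s _
    have h1 : HasDerivAt (fun s : ℝ => Complex.I * ((σ * s : ℝ) : ℂ)) (Complex.I * (σ : ℂ)) s := by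
      have h2 : HasDerivAt (fun s : ℝ => ((s : ℝ) : ℂ)) 1 s := Complex.ofRealCLM.hasDerivAt
      have h3 := h2.const_mul (Complex.I * (σ : ℂ))
      rw [mul_one] at h3
      refine h3.congr_of_eventuallyEq (Filter.Eventually.of_forall fun u => ?_)
      show Complex.I * ((σ * u : ℝ) : ℂ) = Complex.I * (σ : ℂ) * (u : ℂ)
      push_cast
      ring
    exact ((h1.cexp.sub_const 1).sub h1).hasDerivWithinAt
  · simp
  · intro s
    have h2 := (hasDerivAt_pow 2 s).div_const 2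
    have h3 : ((2 : ℕ) : ℝ) * s ^ (2 - 1) / 2 = s := by
      norm_num
    rwa [h3] at h2
  · intro s hs
    have h1 : Complex.exp (Complex.I * ((σ * s : ℝ) : ℂ)) * (Complex.I * (σ : ℂ)) -
        Complex.I * (σ : ℂ) =
        (Complex.exp (Complex.I * ((σ * s : ℝ) : ℂ)) - 1) * (Complex.I * (σ : ℂ)) := by ring
    rw [h1, norm_mul, norm_mul, Complex.norm_I, one_mul, Complex.norm_real, Real.norm_eq_abs, hσ,
      mul_one]
    refine Real.norm_exp_I_mul_ofReal_sub_one_le.trans (le_of_eq ?_)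
    rw [Real.norm_eq_abs, abs_mul, hσ, one_mul, abs_of_nonneg hs.1]

/-- second order estimate -/
private theorem Est_two (t : ℝ) :
    ‖Complex.exp (Complex.I * (t : ℂ)) - 1 - Complex.I * (t : ℂ)‖ ≤ t ^ 2 / 2 := by
  rcases le_total 0 t with h | h
  · have h1 := Est_pos 1 (by norm_num) h
    rwa [one_mul] at h1
  · have h1 := Est_pos (-1) (by norm_num) (neg_nonneg.2 h)
    rwa [neg_mul_neg, one_mul, neg_sq] at h1

private theorem Est_low {p : ℝ} (hp : |p| ≤ Real.pi) :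
    2 / Real.pi * |p| ≤ ‖Complex.exp (-(p : ℂ) * Complex.I) - 1‖ := by
  have h1 : Complex.exp (-(p : ℂ) * Complex.I) = Complex.exp (Complex.I * ((-p : ℝ) : ℂ)) := by
    congr 1
    push_cast
    ring
  rw [h1, Complex.norm_exp_I_mul_ofReal_sub_one]
  have h2 : ‖2 * Real.sin (-p / 2)‖ = 2 * |Real.sin (|p| / 2)| := by
    rw [Real.norm_eq_abs, abs_mul, abs_two]
    congr 1
    rcases abs_cases p with ⟨h, -⟩ | ⟨h, -⟩
    · rw [h, neg_div, Real.sin_neg, abs_neg]
    · rw [h]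
  have h3 := Real.mul_le_sin (x := |p| / 2) (by positivity) (by linarith)
  have h4 := h3.trans (le_abs_self _)
  calc 2 / Real.pi * |p| = 2 * (2 / Real.pi * (|p| / 2)) := by ring
    _ ≤ 2 * |Real.sin (|p| / 2)| := by linarith
    _ = _ := h2.symm

theorem t_Est : S_Est := by
  intro p b hp hpi hb0 hb1
  have hlow := Est_low hpi
  refine ⟨?_, hlow⟩
  have hp0 : (0 : ℝ) < |p| := abs_pos.2 hp
  have hpc : (p : ℂ) ≠ 0 := by exact_mod_cast hp
  have hpos : 0 < ‖Complex.exp (-(p : ℂ) * Complex.I) - 1‖ :=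
    lt_of_lt_of_le (by positivity) hlow
  have hne : Complex.exp (-(p : ℂ) * Complex.I) - 1 ≠ 0 := norm_pos_iff.1 hpos
  have h1 : Complex.exp (-((p * b : ℝ) : ℂ) * Complex.I) /
      (Complex.exp (-(p : ℂ) * Complex.I) - 1) - Complex.I / (p : ℂ) =
      ((p : ℂ) * (Complex.exp (Complex.I * ((-(p * b) : ℝ) : ℂ)) - 1) -
        Complex.I * (Complex.exp (Complex.I * ((-p : ℝ) : ℂ)) - 1 -
          Complex.I * ((-p : ℝ) : ℂ))) /
        ((p : ℂ) * (Complex.exp (-(p : ℂ) * Complex.I) - 1)) := by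
    have h2 : Complex.exp (-((p * b : ℝ) : ℂ) * Complex.I) =
        Complex.exp (Complex.I * ((-(p * b) : ℝ) : ℂ)) := by
      congr 1
      push_cast
      ring
    have h3 : Complex.exp (Complex.I * ((-p : ℝ) : ℂ)) = Complex.exp (-(p : ℂ) * Complex.I) := by
      congr 1
      push_cast
      ring
    rw [h2, h3]
    rw [div_sub_div _ _ hne hpc, mul_comm (Complex.exp (-(p : ℂ) * Complex.I) - 1) (p : ℂ)]
    congr 1
    have hI : Complex.I * Complex.I = -1 := Complex.I_mul_I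
    push_cast
    linear_combination (p : ℂ) * hI
  have h5 : ‖((p : ℂ) * (Complex.exp (Complex.I * ((-(p * b) : ℝ) : ℂ)) - 1) -
        Complex.I * (Complex.exp (Complex.I * ((-p : ℝ) : ℂ)) - 1 -
          Complex.I * ((-p : ℝ) : ℂ)))‖ ≤ |p| * |p| * b + |p| * |p| / 2 := by
    refine (norm_sub_le _ _).trans (add_le_add ?_ ?_)
    · rw [norm_mul, Complex.norm_real, Real.norm_eq_abs]
      have h6 : ‖Complex.exp (Complex.I * ((-(p * b) : ℝ) : ℂ)) - 1‖ ≤ |p| * b := by
        refine Real.norm_exp_I_mul_ofReal_sub_one_le.trans (le_of_eq ?_)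
        rw [Real.norm_eq_abs, abs_neg, abs_mul, abs_of_nonneg hb0]
      calc |p| * ‖Complex.exp (Complex.I * ((-(p * b) : ℝ) : ℂ)) - 1‖ ≤ |p| * (|p| * b) :=
            mul_le_mul_of_nonneg_left h6 hp0.le
        _ = |p| * |p| * b := by ring
    · rw [norm_mul, Complex.norm_I, one_mul]
      refine (Est_two (-p)).trans (le_of_eq ?_)
      rw [neg_sq, ← sq_abs p]
      ring
  rw [h1, norm_div, norm_mul, Complex.norm_real, Real.norm_eq_abs, div_le_iff₀ (by positivity)]
  refine h5.trans ?_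
  have h7 : |p| * (2 / Real.pi * |p|) ≤ |p| * ‖Complex.exp (-(p : ℂ) * Complex.I) - 1‖ :=
    mul_le_mul_of_nonneg_left hlow hp0.le
  have h8 : |p| * |p| * b + |p| * |p| / 2 ≤ 3 / 2 * (|p| * |p|) := by
    nlinarith [mul_pos hp0 hp0]
  have hpi3 : Real.pi < 10 / 3 := by
    have := Real.pi_lt_d2
    linarith
  have h9 : 3 / 2 * (|p| * |p|) ≤ 5 / 2 * (|p| * (2 / Real.pi * |p|)) := by
    have h10 : (3 : ℝ) / 5 ≤ 2 / Real.pi := by
      rw [div_le_div_iff₀ (by norm_num) Real.pi_pos]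
      linarith
    have h11 : 5 / 2 * (|p| * (2 / Real.pi * |p|)) = 5 / 2 * (2 / Real.pi) * (|p| * |p|) := by ring
    rw [h11]
    have h12 : 0 ≤ |p| * |p| := by positivity
    nlinarith
  linarith

end Pool.Agent.FC
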