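import Pool.Agent.Lib.MP_640417_ag.FC.SpecCore

/-!
# FE, core lemma: the family of a cluster without arrows
-/

noncomputable section

open Finset

open scoped Classical

namespace Pool.Agent.FC

theorem t_FamC (h1 : S_Small) (h2 : S_Norm) (h3 : S_Van) : S_FamC := by
  intro ι _ x N e n C w K D hfin hcard hrel hn hnx hnw hbad hC hK hD hw hfar
  have hwpos : 0 < addOrderOf w :=
    addOrderOf_pos_iff.mpr (isOfFinAddOrder_iff_nsmul_eq_zero.mpr ⟨n, hn, hnw⟩)
  have hxpos : ∀ i, 0 < addOrderOf (x i) := fun i => addOrderOf_pos_iff.mpr (hfin i)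
  have hmpos : 0 < (∏ i, addOrderOf (x i)) * addOrderOf w :=
    Nat.mul_pos (Finset.prod_pos fun i _ => hxpos i) hwpos
  have hdvd : ∀ i, addOrderOf (x i) ∣ (∏ i, addOrderOf (x i)) * addOrderOf w := fun i =>
    Dvd.dvd.mul_right (Finset.dvd_prod_of_mem (fun i => addOrderOf (x i)) (Finset.mem_univ i)) _
  have key : ∀ l : ℕ, 1 ≤ l → l ≤ ∑ i ∈ C, (K i).natAbs →
      ∑ i ∈ C with K i ∣ (l : ℤ), (K i : ℂ) * ee (((l : ℤ) / K i) • x i) = 0 := by
    intro l hl1 hl2
    rw [hD] at hl2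
    refine h2 ι (C.filter fun i => K i ∣ (l : ℤ)) K (fun i => ((l : ℤ) / K i) • x i)
      ((∏ i, addOrderOf (x i)) * addOrderOf w) hmpos ?_ ?_
    · intro i _
      have h4 : ((∏ i, addOrderOf (x i)) * addOrderOf w) • x i = 0 :=
        addOrderOf_dvd_iff_nsmul_eq_zero.mp (hdvd i)
      change ((∏ i, addOrderOf (x i)) * addOrderOf w) • (((l : ℤ) / K i) • x i) = 0
      rw [smul_comm, h4, smul_zero]
    · intro t ht
      have hs := h1 ι x N e n C w K D l t hcard hrel hn hnx hnw hbad hC hK hD hw hl1 hl2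
        (fun j hj k hk => hfar l hl1 hl2 j hj k hk)
        (fun i => Nat.Coprime.coprime_dvd_right (hdvd i) ht)
        (Nat.Coprime.coprime_dvd_right (Dvd.intro_left _ rfl) ht)
      have he : (∑ i ∈ C with K i ∣ (l : ℤ), (K i : ℂ) * ee (t • (((l : ℤ) / K i) • x i)))
          = ∑ i ∈ C with K i ∣ (l : ℤ), (K i : ℂ) * ee (((l : ℤ) / K i) • (t • x i)) :=
        Finset.sum_congr rfl fun i _ => by rw [smul_comm]
      rw [he]
      exact hs
  have hv := h3 ι C K x (fun i hi => (hK i hi).1) key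
  refine ⟨fun i hi => (hK i hi).1, ?_⟩
  intro y
  have h5 := hv y
  convert h5 using 2

end Pool.Agent.FC
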