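import Pool.Agent.Lib.MP_640417_ag.FC.SpecCore

/-!
# FE, core lemma, module Far: upper bound of a coefficient
-/

noncomputable section

open Finset

open scoped Classical

namespace Pool.Agent.FC

/-- the denominator in the exact value of a coefficient -/
theorem Far_den (h2 : S_Est) (d : ℕ) (k : ℤ) (hd : 0 < d) (hk : k ≠ 0) (hkd : 2 * |k| ≤ d) :
    4 * |(k : ℝ)| ≤ d * ‖ee ((-(k : ℝ) / d : ℝ) : UnitAddCircle) - 1‖ := by
  have hd' : (0 : ℝ) < d := by exact_mod_cast hd
  have hk' : (k : ℝ) ≠ 0 := by exact_mod_cast hk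
  have hπ := Real.pi_pos
  have hkd' : 2 * |(k : ℝ)| ≤ d := by exact_mod_cast hkd
  have hp : 2 * Real.pi * k / d ≠ 0 := by positivity
  have habs : |2 * Real.pi * k / d| = 2 * Real.pi * |(k : ℝ)| / d := by
    rw [abs_div, abs_mul, abs_of_pos hd', abs_of_pos (by positivity : 0 < 2 * Real.pi)]
  have hle : |2 * Real.pi * k / d| ≤ Real.pi := by
    rw [habs, div_le_iff₀ hd']
    nlinarith
  have h := (h2 (2 * Real.pi * k / d) 0 hp hle le_rfl one_pos).2
  have h5 : ee ((-(k : ℝ) / d : ℝ) : UnitAddCircle) =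
      Complex.exp (-((2 * Real.pi * k / d : ℝ) : ℂ) * Complex.I) := by
    rw [ee_coe]
    congr 1
    push_cast
    ring
  rw [h5]
  calc 4 * |(k : ℝ)| = d * (2 / Real.pi * |2 * Real.pi * k / d|) := by
        rw [habs]
        field_simp
        ring
    _ ≤ _ := mul_le_mul_of_nonneg_left h hd'.le

theorem t_Far (h1 : S_CoefExact) (h2 : S_Est) (h3 : S_Period) (h4 : S_Least) : S_Far := by
  intro n x V c R hn hV hc hc0 hR hk
  have hR4 : 0 ≤ 1 / (4 * R) := by positivity
  by_cases hd : addOrderOf V • c = 0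
  · have hfin : IsOfFinAddOrder V := isOfFinAddOrder_iff_nsmul_eq_zero.2 ⟨n, hn, hV⟩
    have hdpos : 0 < addOrderOf V := hfin.addOrderOf_pos
    obtain ⟨k, hkV, hkd⟩ := h4 V c hfin hd
    have hRk := hk k hkV
    have hk0 : k ≠ 0 := by
      rintro rfl
      rw [zero_smul] at hkV
      exact hc0 hkV.symm
    have hnd : ¬ (addOrderOf V : ℤ) ∣ k := by
      rw [addOrderOf_dvd_iff_zsmul_eq_zero, hkV]
      exact hc0
    obtain ⟨z, -, -, hcf⟩ := h1 (addOrderOf V) hdpos V x rfl k hnd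
    rw [(h3 n x V c hn hV hc).1 hd, ← hkV, hcf, norm_div, norm_ee, norm_mul,
      Complex.norm_natCast]
    refine one_div_le_one_div_of_le (by positivity) ?_
    have := Far_den h2 (addOrderOf V) k hdpos hk0 hkd
    linarith
  · rw [(h3 n x V c hn hV hc).2 hd, norm_zero]
    exact hR4

end Pool.Agent.FC
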