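import Pool.Agent.Lib.MP_640417_ag.FC.SpecCore

/-!
# FE, core lemma: the sum `∑_{r < n} r w ^ r`
-/

namespace Pool.Agent.FC

noncomputable section

open Finset

open scoped Classical

private theorem GeomDer_partial (w : ℂ) (k : ℕ) :
    (∑ r ∈ range k, (r : ℂ) * w ^ r) * (w - 1) = k * w ^ k - ∑ r ∈ range k, w ^ (r + 1) := by
  induction k with
  | zero => simp
  | succ k ih =>
    rw [sum_range_succ, sum_range_succ, add_mul, ih]
    push_cast
    ring

private theorem GeomDer_geom (n : ℕ) (w : ℂ) (h1 : w ^ n = 1) (h2 : w ≠ 1) :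
    ∑ r ∈ range n, w ^ r = 0 := by
  have h3 : w - 1 ≠ 0 := sub_ne_zero.mpr h2
  have h4 : (∑ r ∈ range n, w ^ r) * (w - 1) = 0 := by
    rw [geom_sum_mul, h1, sub_self]
  exact (mul_eq_zero.mp h4).resolve_right h3

theorem t_GeomDer : S_GeomDer := by
  intro n w h1 h2
  have h3 : w - 1 ≠ 0 := sub_ne_zero.mpr h2
  rw [eq_div_iff h3, GeomDer_partial, h1, mul_one]
  have h4 : ∑ r ∈ range n, w ^ (r + 1) = 0 := by
    simp_rw [pow_succ]
    rw [← sum_mul, GeomDer_geom n w h1 h2, zero_mul]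
  rw [h4, sub_zero]

end

end Pool.Agent.FC
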