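import Pool.Agent.Lib.MP_640417_ag.FC.SpecCore

/-!
# FE: a torsion element killed by the order of `V` is a small multiple of `V`
-/

noncomputable section

open Finset

open scoped Classical

namespace Pool.Agent.FC

theorem t_Least : S_Least := by
  intro V c hV hc
  have hd0 : 0 < addOrderOf V := hV.addOrderOf_pos
  obtain ⟨a, -, hgcd, ha⟩ := (AddCircle.addOrderOf_eq_pos_iff hd0).1 rfl
  obtain ⟨b, -, hb⟩ := (AddCircle.nsmul_eq_zero_iff hd0).1 hc
  have bez : (1 : ℤ) = a * Nat.gcdA a (addOrderOf V) +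
      (addOrderOf V : ℤ) * Nat.gcdB a (addOrderOf V) := by
    have h := Nat.gcd_eq_gcd_ab a (addOrderOf V)
    rw [hgcd] at h
    exact_mod_cast h
  have hk0 : ((b : ℤ) * Nat.gcdA a (addOrderOf V)) • V = c := by
    generalize Nat.gcdA a (addOrderOf V) = s at bez ⊢
    generalize Nat.gcdB a (addOrderOf V) = t at bez
    generalize addOrderOf V = d at hd0 ha hb bez
    have hd1 : (d : ℝ) ≠ 0 := by exact_mod_cast hd0.ne'
    have bez' : (1 : ℝ) = a * s + d * t := by exact_mod_cast bez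
    rw [← ha, ← hb, ← AddCircle.coe_zsmul, ← sub_eq_zero, ← AddCircle.coe_sub,
      AddCircle.coe_eq_zero_iff]
    refine ⟨-(b * t), ?_⟩
    rw [zsmul_eq_mul, zsmul_eq_mul]
    push_cast
    field_simp
    linear_combination (b : ℝ) * bez'
  refine ⟨Int.bmod ((b : ℤ) * Nat.gcdA a (addOrderOf V)) (addOrderOf V), ?_, ?_⟩
  · rw [← hk0, zsmul_eq_zsmul_iff_modEq]
    exact Int.bmod_emod
  · have h1 := Int.le_bmod (x := (b : ℤ) * Nat.gcdA a (addOrderOf V)) hd0
    have h2 := Int.bmod_lt (x := (b : ℤ) * Nat.gcdA a (addOrderOf V)) hd0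
    generalize Int.bmod ((b : ℤ) * Nat.gcdA a (addOrderOf V)) (addOrderOf V) = k at h1 h2 ⊢
    rcases abs_cases k with ⟨h, -⟩ | ⟨h, -⟩ <;> rw [h] <;> omega

end Pool.Agent.FC
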