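import Pool.Agent.Lib.MP_640417_ag.FC.SpecCore

/-!
# FE: merging of two clusters
-/

noncomputable section

open Finset

open scoped Classical

namespace Pool.Agent.FC

/-- the gcd and Bezout coefficients -/
private theorem Merge_bez (l : ℕ) (k : ℤ) (hl : 1 ≤ l) (hk : k ≠ 0) :
    ∃ (u l' : ℕ) (k' a b : ℤ), 0 < u ∧ 0 < l' ∧ k' ≠ 0 ∧ l = u * l' ∧ k = u * k' ∧
      a * l' + b * k' = 1 := by
  have hpos : 0 < Int.gcd (l : ℤ) k := Int.gcd_pos_of_ne_zero_right _ hk
  obtain ⟨l1, hl1⟩ := Int.gcd_dvd_left (l : ℤ) k
  obtain ⟨k1, hk1⟩ := Int.gcd_dvd_right (l : ℤ) k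
  have hl1p : 0 < l1 := by
    by_contra h
    have h1 : l1 ≤ 0 := not_lt.1 h
    have h2 : (Int.gcd (l : ℤ) k : ℤ) * l1 ≤ 0 :=
      mul_nonpos_of_nonneg_of_nonpos (Int.natCast_nonneg _) h1
    rw [← hl1] at h2
    omega
  obtain ⟨l2, rfl⟩ := Int.eq_ofNat_of_zero_le hl1p.le
  refine ⟨Int.gcd (l : ℤ) k, l2, k1, Int.gcdA l k, Int.gcdB l k, hpos, ?_, ?_, ?_, hk1, ?_⟩
  · omega
  · rintro rfl
    rw [mul_zero] at hk1
    exact hk hk1
  · exact_mod_cast hl1
  · have hb := Int.gcd_eq_gcd_ab (l : ℤ) k
    have hne : (Int.gcd (l : ℤ) k : ℤ) ≠ 0 := by exact_mod_cast hpos.ne'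
    refine mul_left_cancel₀ hne ?_
    rw [mul_one]
    conv_rhs => rw [hb]
    conv_rhs => rw [show (l : ℤ) * Int.gcdA l k + k * Int.gcdB l k =
      ((Int.gcd (l : ℤ) k : ℤ) * l2) * Int.gcdA l k + ((Int.gcd (l : ℤ) k : ℤ) * k1) * Int.gcdB l k by
        rw [← hl1, ← hk1]]
    ring

private theorem Merge_gen {A : Type} [AddCommGroup A] {a b l k : ℤ} (U W : A)
    (h : l • U = k • W) (hab : a * l + b * k = 1) :
    k • (a • W + b • U) = U ∧ l • (a • W + b • U) = W := by
  constructor
  · rw [smul_add, smul_comm k a W, ← h, smul_smul, smul_smul, ← add_smul, mul_comm k b, hab, one_smul]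
  · rw [smul_add, smul_comm l b U, h, smul_smul, smul_smul, ← add_smul, mul_comm l a, hab, one_smul]

theorem t_Merge : S_Merge := by
  intro ι _ x N e g c w K p q l k hcard S hp hq hpq hl hlD hk hkD hlk
  obtain ⟨u, l', k', a, b, hu, hl', hk', hlu, hku, hab⟩ := Merge_bez l k hl hk
  -- the relation between the generators
  have hrel : (l' : ℤ) • ((u : ℤ) • w p) = k' • ((u : ℤ) • w q) := by
    have h1 : (l' : ℤ) • ((u : ℤ) • w p) = l • w p := by
      rw [smul_smul, ← natCast_zsmul (w p) l, hlu]
      push_cast
      rw [mul_comm]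
    have h2 : k' • ((u : ℤ) • w q) = k • w q := by
      rw [smul_smul, hku, mul_comm]
    rw [h1, h2, hlk]
  set v : UnitAddCircle := a • ((u : ℤ) • w q) + b • ((u : ℤ) • w p) with hv
  obtain ⟨hkv, hlv⟩ : k' • v = (u : ℤ) • w p ∧ (l' : ℤ) • v = (u : ℤ) • w q :=
    Merge_gen _ _ hrel hab
  -- the new data
  set c' : ι → ι := fun i => if c i = q then p else c i with hc'
  set w' : ι → UnitAddCircle := fun r => if r = p then v else (u : ℤ) • w r with hw'
  set K' : ι → ℤ := fun i => if c i = p then k' * K i else if c i = q then l' * K i else K i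
    with hK'
  -- labels
  have himg : univ.image c' = (univ.image c).erase q := by
    ext r
    rw [mem_image, mem_erase, mem_image]
    constructor
    · rintro ⟨i, -, rfl⟩
      by_cases h : c i = q
      · have h1 : c' i = p := by simp only [hc', if_pos h]
        rw [h1]
        exact ⟨hpq, mem_image.1 hp⟩
      · have h1 : c' i = c i := by simp only [hc', if_neg h]
        rw [h1]
        exact ⟨h, i, mem_univ _, rfl⟩
    · rintro ⟨hr, i, -, rfl⟩
      exact ⟨i, mem_univ _, by simp only [hc', if_neg hr]⟩
  have hcd : (univ.image c').card + 1 = (univ.image c).card := by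
    rw [himg, card_erase_of_mem hq]
    have := card_pos.2 ⟨q, hq⟩
    omega
  refine ⟨u * g, c', w', K', ⟨Nat.mul_pos hu S.g0, ?_, ?_, ?_, ?_⟩, hcd⟩
  · intro i
    simp only [hK']
    split_ifs with h1 h2
    · exact mul_ne_zero hk' (S.K0 i)
    · exact mul_ne_zero (by exact_mod_cast hl'.ne') (S.K0 i)
    · exact S.K0 i
  · intro i
    have h0 : (u * g * e) • x i = (u : ℤ) • (K i • w (c i)) := by
      rw [← S.hV i, natCast_zsmul, smul_smul, mul_assoc]
    rw [h0]
    by_cases h1 : c i = p
    · have h2 : c' i = p := by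
        simp only [hc']
        rw [if_neg (by rw [h1]; exact hpq), h1]
      simp only [hK', hw', h2, if_pos h1, if_true]
      rw [h1, mul_comm k', ← smul_smul, hkv, smul_smul, smul_smul, mul_comm]
    · by_cases h2 : c i = q
      · have h3 : c' i = p := by simp only [hc', if_pos h2]
        simp only [hK', hw', h3, if_neg h1, if_pos h2, if_true]
        rw [h2, mul_comm (l' : ℤ), ← smul_smul, hlv, smul_smul, smul_smul, mul_comm]
      · have h3 : c' i = c i := by simp only [hc', if_neg h2]
        simp only [hK', hw', h3, if_neg h1, if_neg h2]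
        rw [smul_smul, smul_smul, mul_comm]
  · intro n hn
    have h0 : ∀ i, (n * u) • ((g * e) • x i) = 0 := by
      intro i
      have := hn i
      rw [smul_smul] at this
      rw [smul_smul, ← this]
      congr 1
      ring
    have h1 := S.hw (n * u) h0
    have h2 : ∀ r ∈ univ.image c, (n : ℤ) • ((u : ℤ) • w r) = 0 := by
      intro r hr
      obtain ⟨i, -, rfl⟩ := mem_image.1 hr
      have h3 := h1 i
      rw [smul_smul, ← Nat.cast_mul, natCast_zsmul]
      exact h3
    intro i
    rw [← natCast_zsmul]
    by_cases h3 : c' i = p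
    · simp only [hw', h3, if_true]
      rw [hv, smul_add, smul_smul (n : ℤ) a, smul_smul (n : ℤ) b, mul_comm (n : ℤ) a,
        mul_comm (n : ℤ) b, ← smul_smul a, ← smul_smul b, h2 q hq, h2 p hp, smul_zero, smul_zero,
        add_zero]
    · simp only [hw', if_neg h3]
      refine h2 _ ?_
      have h4 : c' i ∈ univ.image c' := mem_image_of_mem _ (mem_univ _)
      rw [himg] at h4
      exact mem_of_mem_erase h4
  · -- degrees
    have hD1 : ∀ r, r ≠ p → r ≠ q → DD c' K' r = DD c K r := by
      intro r hrp hrq
      unfold DD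
      have hf : (univ.filter fun i => c' i = r) = univ.filter fun i => c i = r := by
        ext i
        simp only [mem_filter, mem_univ, true_and, hc']
        by_cases h : c i = q
        · rw [if_pos h]
          constructor
          · intro h1
            exact absurd h1.symm hrp
          · intro h1
            exact absurd (h1.symm.trans h) hrq
        · rw [if_neg h]
      rw [hf]
      refine sum_congr rfl fun i hi => ?_
      have h1 : c i = r := (mem_filter.1 hi).2
      simp only [hK', if_neg (by rw [h1]; exact hrp : ¬ c i = p),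
        if_neg (by rw [h1]; exact hrq : ¬ c i = q)]
    have hD2 : DD c' K' p = k'.natAbs * DD c K p + l' * DD c K q := by
      unfold DD
      have hf : (univ.filter fun i => c' i = p) =
          (univ.filter fun i => c i = p) ∪ univ.filter fun i => c i = q := by
        ext i
        simp only [mem_union, mem_filter, mem_univ, true_and, hc']
        by_cases h : c i = q
        · rw [if_pos h]
          simp [h]
        · rw [if_neg h]
          simp [h]
      rw [hf, sum_union, mul_sum, mul_sum]
      · refine congrArg₂ _ (sum_congr rfl fun i hi => ?_) (sum_congr rfl fun i hi => ?_)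
        · have h1 : c i = p := (mem_filter.1 hi).2
          simp only [hK', if_pos h1, Int.natAbs_mul]
        · have h1 : c i = q := (mem_filter.1 hi).2
          have h2 : ¬ c i = p := by
            rw [h1]
            exact fun h => hpq h.symm
          simp only [hK', if_neg h2, if_pos h1, Int.natAbs_mul, Int.natAbs_natCast]
      · rw [disjoint_left]
        intro i h1 h2
        exact hpq ((mem_filter.1 h1).2.symm.trans (mem_filter.1 h2).2)
    have hpe : p ∈ (univ.image c).erase q := mem_erase.2 ⟨hpq, hp⟩
    have hprod : ∏ r ∈ univ.image c', DD c' K' r =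
        DD c' K' p * ∏ r ∈ ((univ.image c).erase q).erase p, DD c K r := by
      rw [himg, ← mul_prod_erase _ _ hpe]
      congr 1
      refine prod_congr rfl fun r hr => ?_
      exact hD1 r (ne_of_mem_erase hr) (ne_of_mem_erase (mem_of_mem_erase hr))
    have hprod2 : ∏ r ∈ univ.image c, DD c K r =
        DD c K q * (DD c K p * ∏ r ∈ ((univ.image c).erase q).erase p, DD c K r) := by
      rw [mul_prod_erase _ _ hpe, mul_prod_erase _ _ hq]
    have hg := S.hg
    rw [hprod2] at hg
    rw [hprod]
    set Pr := ∏ r ∈ ((univ.image c).erase q).erase p, DD c K r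
    have hkey : u * DD c' K' p ≤ 2 * (DD c K p * DD c K q) := by
      have hka : u * k'.natAbs = k.natAbs := by
        rw [hku, Int.natAbs_mul, Int.natAbs_natCast]
      calc u * DD c' K' p = (u * k'.natAbs) * DD c K p + (u * l') * DD c K q := by
            rw [hD2]
            ring
        _ = k.natAbs * DD c K p + l * DD c K q := by rw [hka, ← hlu]
        _ ≤ DD c K q * DD c K p + DD c K p * DD c K q :=
            Nat.add_le_add (Nat.mul_le_mul_right _ hkD) (Nat.mul_le_mul_right _ hlD)
        _ = 2 * (DD c K p * DD c K q) := by ring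
    have hNc : (univ.image c).card ≤ N := (card_image_le.trans (le_of_eq card_univ)).trans hcard
    have hpow : 2 ^ (N - (univ.image c').card) = 2 * 2 ^ (N - (univ.image c).card) := by
      rw [← pow_succ']
      congr 1
      omega
    rw [hpow]
    calc u * g * (DD c' K' p * Pr) = (u * DD c' K' p) * (g * Pr) := by ring
      _ ≤ (2 * (DD c K p * DD c K q)) * (g * Pr) := Nat.mul_le_mul_right _ hkey
      _ = 2 * (g * (DD c K q * (DD c K p * Pr))) := by ring
      _ ≤ 2 * 2 ^ (N - (univ.image c).card) := Nat.mul_le_mul_left _ hg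

end Pool.Agent.FC
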