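import Pool.Agent.Lib.MP_640417_ag.FC.SpecCore

/-!
# FE, core lemma: an algebraic integer all of whose conjugates are smaller than one is zero
-/

noncomputable section

open Finset

open scoped Classical

namespace Pool.Agent.FC

private lemma Norm_zero {F : Type} [Field F] [NumberField F] (u : F) (hu : IsIntegral ℤ u)
    (h : ∀ σ : F →ₐ[ℚ] ℂ, ‖σ u‖ < 1) : u = 0 := by
  have h1 : IsIntegral ℤ (Algebra.norm ℚ u) := Algebra.isIntegral_norm ℚ hu
  obtain ⟨n, hn⟩ := IsIntegrallyClosed.isIntegral_iff.1 h1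
  have h2 := Algebra.norm_eq_prod_embeddings ℚ ℂ u
  have hne : (Finset.univ : Finset (F →ₐ[ℚ] ℂ)).Nonempty := by
    rw [Finset.univ_nonempty_iff, ← Fintype.card_pos_iff, AlgHom.card]
    exact Module.finrank_pos
  have h3 : ‖algebraMap ℚ ℂ (Algebra.norm ℚ u)‖ < 1 := by
    rw [h2, norm_prod]
    obtain ⟨σ0, hσ0⟩ := hne
    rw [← Finset.mul_prod_erase _ _ hσ0]
    have h4 : ∏ σ ∈ Finset.univ.erase σ0, ‖σ u‖ ≤ 1 :=
      Finset.prod_le_one (fun _ _ => norm_nonneg _) (fun σ _ => (h σ).le)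
    have h5 : 0 ≤ ∏ σ ∈ Finset.univ.erase σ0, ‖σ u‖ := Finset.prod_nonneg fun _ _ => norm_nonneg _
    calc ‖σ0 u‖ * ∏ σ ∈ Finset.univ.erase σ0, ‖σ u‖ ≤ ‖σ0 u‖ * 1 :=
          mul_le_mul_of_nonneg_left h4 (norm_nonneg _)
      _ < 1 := by rw [mul_one]; exact h σ0
  rw [← hn] at h3
  have h6 : ‖(n : ℂ)‖ < 1 := by
    simpa using h3
  have h7 : n = 0 := by
    rw [Complex.norm_intCast] at h6
    have h8 : |n| < 1 := by exact_mod_cast h6
    exact Int.abs_lt_one_iff.1 h8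
  rw [h7, map_zero] at hn
  exact Algebra.norm_eq_zero_iff.1 hn.symm

theorem t_Norm : S_Norm := by
  intro ι C a y m hm hy ht
  haveI : NeZero m := ⟨hm.ne'⟩
  haveI : NeZero (m : ℚ) := ⟨Nat.cast_ne_zero.2 hm.ne'⟩
  haveI : IsCyclotomicExtension {m} ℚ (CyclotomicField m ℚ) :=
    CyclotomicField.isCyclotomicExtension m ℚ
  have hz : IsPrimitiveRoot (Complex.exp (2 * Real.pi * Complex.I / m)) m :=
    Complex.isPrimitiveRoot_exp m hm.ne'
  set z : ℂ := Complex.exp (2 * Real.pi * Complex.I / m) with hzdef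
  have h1 : ∀ i ∈ C, ∃ k : ℕ, ee (y i) = z ^ k := by
    intro i hi
    have h0 : ee (y i) ^ m = 1 := by rw [← ee_nsmul, hy i hi, ee_zero]
    obtain ⟨k, _, hk⟩ := hz.eq_pow_of_pow_eq_one h0
    exact ⟨k, hk.symm⟩
  choose! k hk using h1
  have hζ : IsPrimitiveRoot (IsCyclotomicExtension.zeta m ℚ (CyclotomicField m ℚ)) m :=
    IsCyclotomicExtension.zeta_spec m ℚ (CyclotomicField m ℚ)
  set ζ := IsCyclotomicExtension.zeta m ℚ (CyclotomicField m ℚ) with hζdef
  set u : CyclotomicField m ℚ := ∑ i ∈ C, (a i : CyclotomicField m ℚ) * ζ ^ k i with hu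
  have hint : IsIntegral ℤ u := by
    refine IsIntegral.sum _ fun i _ => IsIntegral.mul ?_ ((hζ.isIntegral hm).pow _)
    exact isIntegral_algebraMap (R := ℤ) (A := CyclotomicField m ℚ) (x := a i)
  have hσu : ∀ σ : CyclotomicField m ℚ →ₐ[ℚ] ℂ, σ u = ∑ i ∈ C, (a i : ℂ) * (σ ζ) ^ k i := by
    intro σ
    rw [hu, map_sum]
    refine Finset.sum_congr rfl fun i _ => ?_
    rw [map_mul, map_pow, map_intCast]
  have hlt : ∀ σ : CyclotomicField m ℚ →ₐ[ℚ] ℂ, ‖σ u‖ < 1 := by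
    intro σ
    have h2 : IsPrimitiveRoot (σ ζ) m := hζ.map_of_injective (f := σ) σ.toRingHom.injective
    obtain ⟨t, _, htc, htz⟩ := hz.isPrimitiveRoot_iff.1 h2
    have h3 : σ u = ∑ i ∈ C, (a i : ℂ) * ee (t • y i) := by
      rw [hσu]
      refine Finset.sum_congr rfl fun i hi => ?_
      rw [ee_nsmul, hk i hi, ← htz, ← pow_mul, ← pow_mul, mul_comm t]
    rw [h3]
    exact ht t htc
  have hu0 : u = 0 := Norm_zero u hint hlt
  have hmem : z ∈ primitiveRoots m ℂ := (mem_primitiveRoots hm).2 hz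
  set σ := (hζ.embeddingsEquivPrimitiveRoots ℂ
    (Polynomial.cyclotomic.irreducible_rat hm)).symm ⟨z, hmem⟩ with hσ
  have h4 : σ ζ = z := by
    have := IsPrimitiveRoot.embeddingsEquivPrimitiveRoots_apply_coe hζ ℂ
      (Polynomial.cyclotomic.irreducible_rat hm) σ
    rw [← this, hσ, Equiv.apply_symm_apply]
  have h5 := hσu σ
  rw [hu0, map_zero, h4] at h5
  rw [h5]
  exact Finset.sum_congr rfl fun i hi => by rw [hk i hi]

end Pool.Agent.FC
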