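import Pool.Agent.Lib.MP_640417_ag.FC.SpecCore

/-!
# FE, module `Period`: change of the period of a Fourier coefficient
-/

noncomputable section

open Finset

open scoped Classical

namespace Pool.Agent.FC

private theorem Period_shift {f : ℕ → ℂ} {d : ℕ} {r : ℂ} (h : ∀ s, f (d + s) = r * f s)
    (q s : ℕ) : f (d * q + s) = r ^ q * f s := by
  induction q with
  | zero => simp
  | succ q ih =>
    have e : d * (q + 1) + s = d + (d * q + s) := by ring
    rw [e, h, ih, pow_succ']
    ring

private theorem Period_sum {f : ℕ → ℂ} {d : ℕ} {r : ℂ} (h : ∀ s, f (d + s) = r * f s) (q : ℕ) :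
    ∑ s ∈ range (d * q), f s = (∑ j ∈ range q, r ^ j) * ∑ s ∈ range d, f s := by
  induction q with
  | zero => simp
  | succ q ih =>
    rw [mul_add, mul_one, Finset.sum_range_add, ih, Finset.sum_range_succ, add_mul]
    congr 1
    rw [Finset.mul_sum]
    exact Finset.sum_congr rfl fun s _ => Period_shift h q s

theorem t_Period : S_Period := by
  intro n x V c hn hV hc
  obtain ⟨d, hd⟩ : ∃ d, d = addOrderOf V := ⟨_, rfl⟩
  rw [← hd]
  have hdn : d ∣ n := by
    rw [hd]
    exact addOrderOf_dvd_of_nsmul_eq_zero hV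
  obtain ⟨q, hq⟩ := hdn
  have hdV : d • V = 0 := by
    rw [hd]
    exact addOrderOf_nsmul_eq_zero V
  have hq0 : q ≠ 0 := by
    rintro rfl
    simp at hq
    omega
  have hd0 : d ≠ 0 := by
    rintro rfl
    simp at hq
    omega
  have hsh : ∀ s : ℕ, (sw (x + (d + s) • V) : ℂ) * ee (-((d + s) • c)) =
      ee (-(d • c)) * ((sw (x + s • V) : ℂ) * ee (-(s • c))) := by
    intro s
    rw [add_nsmul, hdV, zero_add, add_nsmul, neg_add, ee_add]
    ring
  have hsum := Period_sum (f := fun s => (sw (x + s • V) : ℂ) * ee (-(s • c))) hsh q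
  rw [← hq] at hsum
  constructor
  · intro h0
    rw [cf, cf, hsum, h0, neg_zero, ee_zero, hq]
    simp only [one_pow, Finset.sum_const, Finset.card_range, nsmul_eq_mul, mul_one]
    push_cast
    have h1 : (q : ℂ) ≠ 0 := Nat.cast_ne_zero.mpr hq0
    have h2 : (d : ℂ) ≠ 0 := Nat.cast_ne_zero.mpr hd0
    field_simp
  · intro h0
    have hr : ee (-(d • c)) ≠ 1 := by
      intro h
      rw [ee_eq_one_iff, neg_eq_zero] at h
      exact h0 h
    have hrq : ee (-(d • c)) ^ q = 1 := by
      rw [← ee_nsmul, ee_eq_one_iff, smul_neg, ← mul_nsmul, ← hq, hc, neg_zero]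
    rw [cf, hsum, geom_sum_eq hr, hrq, sub_self, zero_div, zero_mul, zero_div]

end Pool.Agent.FC
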