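import Pool.Agent.Lib.MP_640417_ag.FC.SpecCore

/-!
# FE: choice of the progression
-/

set_option autoImplicit false

noncomputable section

open Finset

open scoped Classical

namespace Pool.Agent.FC

/-- a prime power dividing `k e`, `e` squarefree -/
private theorem Prog_sqf {p a k e : ℕ} (hp : p.Prime) (he : Squarefree e)
    (h : p ^ (a + 1) ∣ k * e) : p ^ a ∣ k := by
  by_cases hpe : p ∣ e
  · obtain ⟨e', rfl⟩ := hpe
    have hpe' : ¬ p ∣ e' := by
      intro h'
      obtain ⟨e'', rfl⟩ := h'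
      have := he p ⟨e'', by ring⟩
      exact hp.one_lt.ne' (Nat.isUnit_iff.1 this)
    have h1 : p ^ a * p ∣ k * e' * p := by
      rw [← pow_succ]
      rw [show k * e' * p = k * (p * e') by ring]
      exact h
    have h2 : p ^ a ∣ k * e' := Nat.dvd_of_mul_dvd_mul_right hp.pos h1
    exact (Nat.Coprime.pow_left a ((Nat.Prime.coprime_iff_not_dvd hp).2 hpe')).dvd_of_dvd_mul_right
      h2
  · have h1 : p ^ (a + 1) ∣ k :=
      (Nat.Coprime.pow_left _ ((Nat.Prime.coprime_iff_not_dvd hp).2 hpe)).dvd_of_dvd_mul_right h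
    exact (pow_dvd_pow p (Nat.le_succ a)).trans h1

/-- a prime power dividing a least common multiple -/
private theorem Prog_lcm {ι : Type} {p k : ℕ} (hp : p.Prime) (f : ι → ℕ) (hf : ∀ i, f i ≠ 0)
    (s : Finset ι) (hk : k ≠ 0) (h : p ^ k ∣ s.lcm f) : ∃ i ∈ s, p ^ k ∣ f i := by
  induction s using Finset.induction_on with
  | empty =>
    exfalso
    rw [Finset.lcm_empty] at h
    have h1 : p ∣ 1 := (dvd_pow_self p hk).trans h
    exact hp.one_lt.ne' (Nat.dvd_one.1 h1)
  | insert a s ha ih =>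
    rw [Finset.lcm_insert] at h
    have hs0 : s.lcm f ≠ 0 := by
      rw [Ne, Finset.lcm_eq_zero_iff]
      rintro ⟨i, -, hi⟩
      exact hf i hi
    have h' : p ^ k ∣ Nat.lcm (f a) (s.lcm f) := h
    rw [hp.pow_dvd_iff_le_factorization (Nat.lcm_ne_zero (hf a) hs0),
      Nat.factorization_lcm (hf a) hs0, Finsupp.sup_apply, le_sup_iff] at h'
    rcases h' with h' | h'
    · exact ⟨a, mem_insert_self _ _, (hp.pow_dvd_iff_le_factorization (hf a)).2 h'⟩
    · obtain ⟨i, hi, hi'⟩ := ih ((hp.pow_dvd_iff_le_factorization hs0).2 h')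
      exact ⟨i, mem_insert_of_mem hi, hi'⟩

theorem t_Prog : S_Prog := by
  intro ι _ x N i1 hfin hN hM
  have hN1 : 1 ≤ N := by
    have : 0 < Fintype.card ι := Fintype.card_pos_iff.2 ⟨i1⟩
    omega
  have hord : ∀ i, addOrderOf (x i) ≠ 0 := fun i => (hfin i).addOrderOf_pos.ne'
  set B := (32 * N) ^ N with hB
  have hB2 : (32 * N) ^ (2 * N) = B * B := by rw [hB, ← pow_add]; ring_nf
  have hBpos : 0 < B := by positivity
  -- the prime power
  obtain ⟨p, a, hp, hpa, hpB⟩ : ∃ p a : ℕ, p.Prime ∧ p ^ a ∣ addOrderOf (x i1) ∧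
      B * B < p ^ a := by
    have h1 : ¬ addOrderOf (x i1) ∣ MM N := fun h => hM (addOrderOf_dvd_iff_nsmul_eq_zero.1 h)
    rw [Nat.dvd_iff_prime_pow_dvd_dvd] at h1
    push Not at h1
    obtain ⟨p, a, hp, hpa, hna⟩ := h1
    refine ⟨p, a, hp, hpa, ?_⟩
    by_contra hle
    push Not at hle
    apply hna
    rw [← hB2] at hle
    exact Finset.dvd_lcm (f := id) (mem_Icc.2 ⟨Nat.one_le_pow _ _ hp.pos, hle⟩)
  have ha : a ≠ 0 := by
    rintro rfl
    rw [pow_zero] at hpB
    have : 1 ≤ B * B := Nat.mul_pos hBpos hBpos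
    omega
  -- the common multiple
  set m := (univ : Finset ι).lcm fun i => addOrderOf (x i) with hm
  have hmd : ∀ i, addOrderOf (x i) ∣ m := fun i =>
    Finset.dvd_lcm (f := fun i => addOrderOf (x i)) (mem_univ i)
  have hm0 : m ≠ 0 := by
    rw [hm, Ne, Finset.lcm_eq_zero_iff]
    rintro ⟨i, -, hi⟩
    exact hord i hi
  have hkill : ∀ n i, m ∣ n → n • x i = 0 := fun n i h =>
    addOrderOf_dvd_iff_nsmul_eq_zero.1 ((hmd i).trans h)
  have hfin' : ∀ e i, 0 < addOrderOf (e • x i) := fun e i => by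
    have : IsOfFinAddOrder (e • x i) := (hfin i).nsmul
    exact this.addOrderOf_pos
  -- divisors of the order of `e x`
  have hdiv : ∀ e i, addOrderOf (x i) ∣ addOrderOf (e • x i) * e := by
    intro e i
    rw [addOrderOf_dvd_iff_nsmul_eq_zero, mul_smul]
    exact addOrderOf_nsmul_eq_zero _
  have hpm : p ∣ m := ((dvd_pow_self p ha).trans hpa).trans (hmd i1)
  by_cases hcase : B < p ∧ ¬ p ^ 2 ∣ m
  · obtain ⟨hBp, hp2⟩ := hcase
    obtain ⟨m', hm'⟩ := hpm
    have hpm' : ¬ p ∣ m' := by
      rintro ⟨m'', rfl⟩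
      exact hp2 ⟨m'', by rw [hm']; ring⟩
    have hco : p.Coprime m' := (Nat.Prime.coprime_iff_not_dvd hp).2 hpm'
    obtain ⟨e, he1, he0⟩ := Nat.chineseRemainder hco 1 0
    have hem' : m' ∣ e := (Nat.modEq_zero_iff_dvd).1 he0
    have hpe : ¬ p ∣ e := by
      intro h
      have h1 : e ≡ 0 [MOD p] := Nat.modEq_zero_iff_dvd.2 h
      have h2 : 1 ≡ 0 [MOD p] := he1.symm.trans h1
      exact hp.one_lt.ne' (Nat.dvd_one.1 (Nat.modEq_zero_iff_dvd.1 h2))
    refine ⟨e, i1, ?_, ?_⟩
    · have h1 : p ∣ addOrderOf (e • x i1) * e :=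
        ((dvd_pow_self p ha).trans hpa).trans (hdiv e i1)
      have h2 := (hp.dvd_mul.1 h1).resolve_right hpe
      exact lt_of_lt_of_le hBp (Nat.le_of_dvd (hfin' e i1) h2)
    · intro g hg1 hg2
      have hgp : g < p := by
        have h1 : 2 ^ (N - 1) ≤ (32 * N) ^ N := by
          calc 2 ^ (N - 1) ≤ 2 ^ N := Nat.pow_le_pow_right (by norm_num) (by omega)
            _ ≤ (32 * N) ^ N := Nat.pow_le_pow_left (by omega) N
        omega
      have hpg : ¬ p ∣ g := fun h => by
        have := Nat.le_of_dvd (by omega) h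
        omega
      refine ⟨p, hp.pos, fun i => ?_, ?_⟩
      · rw [← mul_smul]
        apply hkill
        rw [hm']
        exact Nat.mul_dvd_mul_left p (hem'.mul_left g)
      · have key : ∀ s, (¬ ∀ i, (1 + g * e * s).Coprime (addOrderOf (x i))) →
            p ∣ 1 + g * e * s := by
          intro s hs
          push Not at hs
          obtain ⟨i, hi⟩ := hs
          obtain ⟨q, hq, hq1, hq2⟩ := Nat.Prime.not_coprime_iff_dvd.1 hi
          have hqm : q ∣ p * m' := by rw [← hm']; exact hq2.trans (hmd i)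
          rcases hq.dvd_mul.1 hqm with h | h
          · rw [(Nat.prime_dvd_prime_iff_eq hq hp).1 h] at hq1
            exact hq1
          · exfalso
            have h1 : q ∣ g * e * s := (((h.trans hem').mul_left g).mul_right s)
            have h2 : q ∣ 1 := (Nat.dvd_add_left h1).1 hq1
            exact hq.one_lt.ne' (Nat.dvd_one.1 h2)
        rw [bad, Finset.card_le_one]
        intro s hs s' hs'
        rw [mem_filter, mem_range] at hs hs'
        have h1 := key s hs.2
        have h2 := key s' hs'.2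
        have h3 : g * e * s ≡ g * e * s' [MOD p] := by
          apply Nat.ModEq.add_left_cancel' 1
          exact (Nat.modEq_zero_iff_dvd.2 h1).trans (Nat.modEq_zero_iff_dvd.2 h2).symm
        have hge : p.gcd (g * e) = 1 := by
          rw [← Nat.coprime_iff_gcd_eq_one, Nat.Prime.coprime_iff_not_dvd hp, hp.dvd_mul]
          push Not
          exact ⟨hpg, hpe⟩
        have h4 : s ≡ s' [MOD p] := Nat.ModEq.cancel_left_of_coprime hge h3
        exact Nat.ModEq.eq_of_lt_of_lt h4 hs.1 hs'.1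
  · -- Case II
    set e := UniqueFactorizationMonoid.radical m with he
    have hsq : Squarefree e := UniqueFactorizationMonoid.squarefree_radical
    obtain ⟨i0, hi0⟩ : ∃ i0, B < addOrderOf (e • x i0) := by
      by_cases hBp : B < p
      · have hp2 : p ^ 2 ∣ m := by
          by_contra h
          exact hcase ⟨hBp, h⟩
        obtain ⟨i0, -, hi0⟩ := Prog_lcm hp _ hord univ (by norm_num) hp2
        refine ⟨i0, ?_⟩
        have h1 : p ^ 1 ∣ addOrderOf (e • x i0) := Prog_sqf hp hsq (hi0.trans (hdiv e i0))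
        rw [pow_one] at h1
        exact lt_of_lt_of_le hBp (Nat.le_of_dvd (hfin' e i0) h1)
      · refine ⟨i1, ?_⟩
        obtain ⟨b, rfl⟩ : ∃ b, a = b + 1 := ⟨a - 1, by omega⟩
        have h1 : p ^ b ∣ addOrderOf (e • x i1) := Prog_sqf hp hsq (hpa.trans (hdiv e i1))
        refine lt_of_lt_of_le ?_ (Nat.le_of_dvd (hfin' e i1) h1)
        by_contra hle
        push Not at hle hBp
        have : p ^ (b + 1) ≤ B * B := by
          rw [pow_succ]
          exact Nat.mul_le_mul hle hBp
        omega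
    refine ⟨e, i0, hi0, fun g _ _ => ⟨m, Nat.pos_of_ne_zero hm0, fun i => ?_, ?_⟩⟩
    · rw [← mul_smul]
      exact hkill _ i (dvd_mul_right m _)
    · have h0 : bad x (g * e) m = 0 := by
        rw [bad, Finset.card_eq_zero, Finset.filter_eq_empty_iff]
        intro s _ hs
        push Not at hs
        obtain ⟨i, hi⟩ := hs
        obtain ⟨q, hq, hq1, hq2⟩ := Nat.Prime.not_coprime_iff_dvd.1 hi
        have hqe : q ∣ e := by
          rw [he, UniqueFactorizationMonoid.dvd_radical_iff_of_irreducible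
            (Nat.prime_iff.1 hq).irreducible hm0]
          exact hq2.trans (hmd i)
        have h1 : q ∣ g * e * s := ((hqe.mul_left g).mul_right s)
        have h2 : q ∣ 1 := (Nat.dvd_add_left h1).1 hq1
        exact hq.one_lt.ne' (Nat.dvd_one.1 h2)
      rw [h0]
      exact Nat.zero_le _

end Pool.Agent.FC
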