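import Pool.Agent.Lib.MP_640417_ag.FC.SpecCore

/-!
# FE: reindexing of the multiples of an element of order `n` of the circle (`S_Reindex`)
-/

set_option autoImplicit false

namespace Pool.Agent.FC

noncomputable section

open Finset

open scoped Classical

private theorem Reindex_smul (n k s : ℕ) (hn : 0 < n) :
    s • (((k : ℝ) / n * 1 : ℝ) : UnitAddCircle) =
      ((((s * k % n : ℕ) : ℝ) / n : ℝ) : UnitAddCircle) := by
  have hn' : (n : ℝ) ≠ 0 := by exact_mod_cast hn.ne'
  have h1 : (s : ℝ) * k = n * ((s * k / n : ℕ) : ℝ) + ((s * k % n : ℕ) : ℝ) := by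
    exact_mod_cast (Nat.div_add_mod (s * k) n).symm
  have h2 : s • ((k : ℝ) / n * 1) = (s * k / n : ℕ) • (1 : ℝ) + ((s * k % n : ℕ) : ℝ) / n := by
    rw [nsmul_eq_mul, nsmul_eq_mul, mul_one, mul_one, mul_div_assoc', h1]
    field_simp
  rw [← AddCircle.coe_nsmul, h2, AddCircle.coe_add, AddCircle.coe_nsmul, AddCircle.coe_period,
    smul_zero, zero_add]

theorem t_Reindex : S_Reindex := by
  intro n hn V hV F
  obtain ⟨k, -, hkn, rfl⟩ := (AddCircle.addOrderOf_eq_pos_iff hn).1 hV
  have hinj : ∀ s ∈ range n, ∀ t ∈ range n, s * k % n = t * k % n → s = t := by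
    intro s hs t ht h
    have h2 : s ≡ t [MOD n] :=
      Nat.ModEq.cancel_right_of_coprime (by rw [Nat.gcd_comm]; exact hkn) h
    exact Nat.ModEq.eq_of_lt_of_lt h2 (mem_range.1 hs) (mem_range.1 ht)
  have himg : (range n).image (fun s => s * k % n) = range n := by
    refine eq_of_subset_of_card_le ?_ ?_
    · intro r hr
      obtain ⟨s, -, rfl⟩ := mem_image.1 hr
      exact mem_range.2 (Nat.mod_lt _ hn)
    · rw [card_image_of_injOn fun s hs t ht h => hinj s hs t ht h]
  calc ∑ s ∈ range n, F (s • (((k : ℝ) / n * 1 : ℝ) : UnitAddCircle))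
      = ∑ s ∈ range n, F ((((s * k % n : ℕ) : ℝ) / n : ℝ) : UnitAddCircle) :=
        sum_congr rfl fun s _ => by rw [Reindex_smul n k s hn]
    _ = ∑ r ∈ (range n).image (fun s => s * k % n), F (((r : ℝ) / n : ℝ) : UnitAddCircle) :=
        (sum_image (f := fun r : ℕ => F (((r : ℝ) / n : ℝ) : UnitAddCircle))
          fun s hs t ht h => hinj s hs t ht h).symm
    _ = ∑ r ∈ range n, F (((r : ℝ) / n : ℝ) : UnitAddCircle) := by rw [himg]

end

end Pool.Agent.FC
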