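import Pool.Agent.Lib.MP_640417_ag.FC.SpecCore

/-!
# FE, core lemma: the solutions of `K y = x`
-/

set_option autoImplicit false

noncomputable section

open Finset
open scoped Classical

namespace Pool.Agent.FC

private lemma Roots_eq (a b : ℝ) : ((a : UnitAddCircle) = (b : UnitAddCircle)) ↔
    ∃ k : ℤ, a = b + k := by
  rw [← sub_eq_zero, ← AddCircle.coe_sub, AddCircle.coe_eq_zero_iff]
  constructor
  · rintro ⟨k, hk⟩
    refine ⟨k, ?_⟩
    rw [zsmul_eq_mul, mul_one] at hk
    linarith
  · rintro ⟨k, hk⟩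
    refine ⟨k, ?_⟩
    rw [zsmul_eq_mul, mul_one, hk]
    ring

private lemma Roots_pos (n : ℕ) (hn : 0 < n) (x : UnitAddCircle) :
    ∃ R : Finset UnitAddCircle, R.card = n ∧ (∀ y, y ∈ R ↔ (n : ℤ) • y = x) ∧
      ∀ l : ℤ, ∑ y ∈ R, ee (l • y) =
        if (n : ℤ) ∣ l then (n : ℂ) * ee ((l / (n : ℤ)) • x) else 0 := by
  obtain ⟨r, rfl⟩ : ∃ r : ℝ, (r : UnitAddCircle) = x := QuotientAddGroup.mk_surjective x
  have hn0 : (n : ℝ) ≠ 0 := by exact_mod_cast hn.ne'
  have hnz : (0 : ℤ) < n := by exact_mod_cast hn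
  let f : ℕ → UnitAddCircle := fun j => (((r + j) / n : ℝ) : UnitAddCircle)
  have hinj : Set.InjOn f (range n) := by
    intro i hi j hj hij
    have hi' : i < n := by simpa using hi
    have hj' : j < n := by simpa using hj
    obtain ⟨k, hk⟩ := (Roots_eq _ _).1 hij
    have h1 : (i : ℝ) = j + n * k := by
      field_simp at hk
      linarith
    have h2 : (i : ℤ) = j + n * k := by exact_mod_cast h1
    have h3 : (i : ℤ) % n = (j : ℤ) % n := by rw [h2, Int.add_mul_emod_self_left]
    rw [Int.emod_eq_of_lt (by omega) (by omega), Int.emod_eq_of_lt (by omega) (by omega)] at h3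
    omega
  refine ⟨(range n).image f, ?_, ?_, ?_⟩
  · rw [Finset.card_image_of_injOn hinj, Finset.card_range]
  · intro y
    rw [Finset.mem_image]
    constructor
    · rintro ⟨j, -, rfl⟩
      change (n : ℤ) • (((r + j) / n : ℝ) : UnitAddCircle) = (r : UnitAddCircle)
      rw [← AddCircle.coe_zsmul, Roots_eq]
      refine ⟨j, ?_⟩
      rw [zsmul_eq_mul]
      push_cast
      field_simp
    · intro hy
      obtain ⟨s, rfl⟩ : ∃ s : ℝ, (s : UnitAddCircle) = y := QuotientAddGroup.mk_surjective y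
      rw [← AddCircle.coe_zsmul, Roots_eq] at hy
      obtain ⟨k, hk⟩ := hy
      rw [zsmul_eq_mul] at hk
      push_cast at hk
      have h1 := Int.emod_nonneg k hnz.ne'
      have h2 := Int.emod_lt_of_pos k hnz
      refine ⟨(k % n).toNat, Finset.mem_range.2 (by omega), ?_⟩
      change ((((r + ((k % n).toNat : ℕ)) / n : ℝ)) : UnitAddCircle) = (s : UnitAddCircle)
      rw [Roots_eq]
      refine ⟨-(k / n), ?_⟩
      have h3 : (((k % n).toNat : ℕ) : ℝ) = ((k % n : ℤ) : ℝ) := by
        have : (((k % n).toNat : ℕ) : ℤ) = k % n := Int.toNat_of_nonneg h1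
        exact_mod_cast this
      have h4 : ((k % n : ℤ) : ℝ) = k - n * ((k / n : ℤ) : ℝ) := by
        have : k % n = k - n * (k / n) := by rw [Int.emod_def]
        rw [this]
        push_cast
        ring
      rw [h3, h4]
      have h5 : s = (r + k) / n := by
        field_simp
        linarith
      rw [h5]
      push_cast
      field_simp
      ring
  · intro l
    rw [Finset.sum_image hinj]
    have h1 : ∀ j : ℕ, ee (l • f j) =
        ee (((l * (r / n) : ℝ)) : UnitAddCircle) * ee (((l / n : ℝ)) : UnitAddCircle) ^ j := by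
      intro j
      rw [← ee_nsmul, ← ee_add]
      congr 1
      change l • (((r + j) / n : ℝ) : UnitAddCircle) = _
      rw [← AddCircle.coe_zsmul, ← AddCircle.coe_nsmul, ← AddCircle.coe_add]
      congr 1
      rw [zsmul_eq_mul, nsmul_eq_mul]
      field_simp
    rw [Finset.sum_congr rfl fun j _ => h1 j, ← Finset.mul_sum]
    have h2 : ee (((l / n : ℝ)) : UnitAddCircle) ^ n = 1 := by
      rw [← ee_nsmul, ee_eq_one_iff, ← AddCircle.coe_nsmul, AddCircle.coe_eq_zero_iff]
      refine ⟨l, ?_⟩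
      rw [zsmul_eq_mul, mul_one, nsmul_eq_mul]
      field_simp
    by_cases hl : (n : ℤ) ∣ l
    · obtain ⟨q, rfl⟩ := hl
      rw [if_pos (dvd_mul_right _ _)]
      have h3 : ee ((((((n : ℤ) * q : ℤ) : ℝ) / n : ℝ)) : UnitAddCircle) = 1 := by
        rw [ee_eq_one_iff, AddCircle.coe_eq_zero_iff]
        refine ⟨q, ?_⟩
        rw [zsmul_eq_mul, mul_one]
        push_cast
        field_simp
      rw [h3, Int.mul_ediv_cancel_left _ hnz.ne']
      simp only [one_pow, Finset.sum_const, Finset.card_range, nsmul_eq_mul, mul_one]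
      rw [mul_comm]
      congr 2
      rw [← AddCircle.coe_zsmul]
      congr 1
      rw [zsmul_eq_mul]
      push_cast
      field_simp
    · rw [if_neg hl, geom_sum_eq, h2, sub_self, zero_div, mul_zero]
      intro h3
      rw [ee_eq_one_iff, AddCircle.coe_eq_zero_iff] at h3
      obtain ⟨k, hk⟩ := h3
      rw [zsmul_eq_mul, mul_one] at hk
      apply hl
      refine ⟨k, ?_⟩
      have h4 : (l : ℝ) = n * k := by
        rw [hk]
        field_simp
      exact_mod_cast h4

/-- The solutions of `K y = x`. -/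
theorem t_Roots : S_Roots := by
  intro K x hK
  rcases lt_or_gt_of_ne hK with h | h
  · obtain ⟨R, h1, h2, h3⟩ := Roots_pos K.natAbs (Int.natAbs_pos.2 hK) (-x)
    have hk : ((K.natAbs : ℕ) : ℤ) = -K := by omega
    refine ⟨R, h1, ?_, ?_⟩
    · intro y
      rw [h2, hk, neg_smul, neg_inj]
    · intro l
      rw [h3, hk]
      by_cases hl : K ∣ l
      · rw [if_pos hl, if_pos ((neg_dvd).2 hl), Int.ediv_neg, neg_smul, smul_neg, neg_neg]
      · rw [if_neg hl, if_neg (fun h => hl ((neg_dvd).1 h))]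
  · obtain ⟨R, h1, h2, h3⟩ := Roots_pos K.natAbs (Int.natAbs_pos.2 hK) x
    have hk : ((K.natAbs : ℕ) : ℤ) = K := by omega
    refine ⟨R, h1, ?_, ?_⟩
    · intro y
      rw [h2, hk]
    · intro l
      rw [h3, hk]

end Pool.Agent.FC
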