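import Pool.Agent.Lib.MP_640417_ag.FC.SpecCore

/-!
# FE: `SawCoset`
-/

noncomputable section

open Finset

open scoped Classical

namespace Pool.Agent.FC

private theorem SawCoset_sw (t : ℝ) (h0 : 0 ≤ t) (h1 : t < 1) :
    sw (t : UnitAddCircle) = t - 1 / 2 := by
  unfold sw
  have h : (AddCircle.equivIco 1 0 (t : UnitAddCircle) : ℝ) = t := by
    have := AddCircle.coe_equivIco_mk_apply (p := (1 : ℝ)) t
    rw [this, div_one, mul_one, Int.fract_eq_self]
    exact ⟨h0, h1⟩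
  rw [h]

theorem t_SawCoset : S_SawCoset := by
  intro n hn x
  have hn' : (0 : ℝ) < n := by exact_mod_cast hn
  obtain ⟨y, hy0, hy1, hyx⟩ : ∃ y : ℝ, 0 ≤ y ∧ y < 1 ∧ x = (y : UnitAddCircle) := by
    refine ⟨(AddCircle.equivIco 1 0 x : ℝ), (AddCircle.equivIco 1 0 x).2.1, ?_, ?_⟩
    · have := (AddCircle.equivIco (1 : ℝ) 0 x).2.2
      linarith
    · exact ((AddCircle.equivIco (1 : ℝ) 0).symm_apply_apply x).symm
  obtain ⟨j, hj⟩ : ∃ j : ℕ, j = ⌊(n : ℝ) * y⌋₊ := ⟨_, rfl⟩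
  have hny : 0 ≤ (n : ℝ) * y := mul_nonneg hn'.le hy0
  have hj1 : (j : ℝ) ≤ n * y := by rw [hj]; exact Nat.floor_le hny
  have hj2 : (n : ℝ) * y < j + 1 := by rw [hj]; exact Nat.lt_floor_add_one _
  have hjn : (j : ℝ) / n ≤ y := by rw [div_le_iff₀ hn']; linarith [mul_comm y (n : ℝ)]
  have hjn2 : y < (j : ℝ) / n + 1 / n := by
    rw [← add_div, lt_div_iff₀ hn']; linarith [mul_comm y (n : ℝ)]
  refine ⟨y - (j : ℝ) / n, j, by linarith, by linarith, ?_, ?_, ?_⟩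
  · have : (j : ℝ) < n := by nlinarith
    exact_mod_cast this
  · rw [hyx]
    congr 1
    ring
  · intro r hr
    have hr1 : (r : ℝ) + 1 ≤ n := by exact_mod_cast hr
    have hr2 : (r : ℝ) / n + 1 / n ≤ 1 := by
      rw [← add_div, div_le_one hn']; exact hr1
    have hr3 : 0 ≤ (r : ℝ) / n := div_nonneg (Nat.cast_nonneg r) hn'.le
    exact SawCoset_sw _ (by linarith) (by linarith)

end Pool.Agent.FC
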