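import Pool.Agent.Lib.MP_640417_ag.FC.SpecCore

/-! # FE: the main estimate (`S_Small`) -/

noncomputable section

open Finset

open scoped Classical

namespace Pool.Agent.FC

private theorem Small_cop {y : UnitAddCircle} {t m : ℕ} (h : t.Coprime m) (h1 : t • y = 0)
    (h2 : m • y = 0) : y = 0 := by
  have a1 : addOrderOf y ∣ t := addOrderOf_dvd_iff_nsmul_eq_zero.mpr h1
  have a2 : addOrderOf y ∣ m := addOrderOf_dvd_iff_nsmul_eq_zero.mpr h2
  have a3 : addOrderOf y ∣ Nat.gcd t m := Nat.dvd_gcd a1 a2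
  rw [h, Nat.dvd_one] at a3
  exact AddMonoid.addOrderOf_eq_one_iff.mp a3

/-- the real inequality -/
private theorem Small_real (N D l d : ℝ) (hN : 1 ≤ N) (hl : 1 ≤ l) (hlD : l ≤ D)
    (hd : 32 * N * D ^ 2 ≤ d) :
    2 * Real.pi * l * (N * D / (2 * d) + 5 * D / (2 * d) + D / (4 * (d - l)) +
      (N - 1) * (1 / (4 * (4 * N * l)))) < 1 := by
  have hD : 1 ≤ D := le_trans hl hlD
  have hDD : D ≤ D ^ 2 := by nlinarith
  have hlDD : l * D ≤ D ^ 2 := by nlinarith
  have hD2 : 1 ≤ D ^ 2 := le_trans hD hDD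
  have hND : D ^ 2 ≤ N * D ^ 2 := by nlinarith
  have hdpos : 0 < d := by nlinarith
  have hdl : 31 * N * D ^ 2 ≤ d - l := by nlinarith
  have hdlpos : 0 < d - l := by nlinarith
  have hpi : Real.pi < 3.15 := Real.pi_lt_d2
  have hpi0 : 0 < Real.pi := Real.pi_pos
  have e1 : l * (N * D / (2 * d)) ≤ 1 / 64 := by
    rw [← mul_div_assoc, div_le_div_iff₀ (by positivity) (by norm_num)]
    nlinarith
  have e2 : l * (5 * D / (2 * d)) ≤ 5 / (64 * N) := by
    rw [← mul_div_assoc, div_le_div_iff₀ (by positivity) (by positivity)]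
    nlinarith
  have e3 : l * (D / (4 * (d - l))) ≤ 1 / (124 * N) := by
    rw [← mul_div_assoc, div_le_div_iff₀ (by positivity) (by positivity)]
    nlinarith
  have e4 : l * ((N - 1) * (1 / (4 * (4 * N * l)))) = 1 / 16 - 1 / (16 * N) := by
    have hl0 : l ≠ 0 := by positivity
    have hN0 : N ≠ 0 := by positivity
    field_simp
    ring
  have e5 : 5 / (64 * N) + 1 / (124 * N) - 1 / (16 * N) ≤ 5 / 64 + 1 / 124 - 1 / 16 := by
    have hN1 : 1 / N ≤ 1 := by
      rw [div_le_one (by positivity)]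
      exact hN
    have : 5 / (64 * N) + 1 / (124 * N) - 1 / (16 * N) = (5 / 64 + 1 / 124 - 1 / 16) * (1 / N) := by
      have hN0 : N ≠ 0 := by positivity
      field_simp
    rw [this]
    nlinarith
  have tot : l * (N * D / (2 * d) + 5 * D / (2 * d) + D / (4 * (d - l)) +
      (N - 1) * (1 / (4 * (4 * N * l)))) ≤ 1 / 64 + 5 / 64 + 1 / 124 := by
    have : l * (N * D / (2 * d) + 5 * D / (2 * d) + D / (4 * (d - l)) +
      (N - 1) * (1 / (4 * (4 * N * l)))) = l * (N * D / (2 * d)) + l * (5 * D / (2 * d)) +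
        l * (D / (4 * (d - l))) + l * ((N - 1) * (1 / (4 * (4 * N * l)))) := by ring
    rw [this, e4]
    linarith
  calc 2 * Real.pi * l * (N * D / (2 * d) + 5 * D / (2 * d) + D / (4 * (d - l)) +
      (N - 1) * (1 / (4 * (4 * N * l)))) = 2 * Real.pi * (l * (N * D / (2 * d) + 5 * D / (2 * d) +
        D / (4 * (d - l)) + (N - 1) * (1 / (4 * (4 * N * l))))) := by ring
    _ ≤ 2 * Real.pi * (1 / 64 + 5 / 64 + 1 / 124) := by
        apply mul_le_mul_of_nonneg_left tot (by positivity)
    _ < 1 := by nlinarith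

theorem t_Small (h1 : S_Far) (h2 : S_Near) (h3 : S_Tot) : S_Small := by
  intro ι _ x N e n C w K D l t hN hRel hn hnV hnw hbad hC hK hD hord hl1 hlD hno ht htw
  obtain ⟨i0, hi0⟩ := hC
  have hcard : 1 ≤ Fintype.card ι := Fintype.card_pos_iff.mpr ⟨i0⟩
  have hN1 : 1 ≤ N := le_trans hcard hN
  have hD1 : 1 ≤ D := le_trans hl1 hlD
  set d := addOrderOf w with hd
  have hD2 : 1 ≤ D ^ 2 := Nat.one_le_pow _ _ hD1
  have hDD : D ≤ D ^ 2 := by nlinarith
  have hd32 : 32 * D ^ 2 ≤ d := by nlinarith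
  have hld : l < d := by nlinarith
  have hdpos : 0 < d := by omega
  -- divisibility
  have hKD : ∀ i ∈ C, (K i).natAbs ≤ D := by
    intro i hi
    rw [← hD]
    exact Finset.single_le_sum (f := fun i => (K i).natAbs) (fun _ _ => Nat.zero_le _) hi
  have hA : ∀ i, ∀ k : ℤ, k • (t • (e • x i)) = t • (l • w) → k • (e • x i) = l • w := by
    intro i k hk
    have h0 : t • (k • (e • x i) - l • w) = 0 := by
      rw [smul_sub, ← hk, smul_comm t k, sub_self]
    have h4 : (addOrderOf (x i) * d) • (k • (e • x i) - l • w) = 0 := by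
      rw [smul_sub]
      have b1 : (addOrderOf (x i) * d) • (k • (e • x i)) = 0 := by
        rw [smul_comm _ k, smul_comm _ e, mul_comm, mul_smul, addOrderOf_nsmul_eq_zero, smul_zero,
          smul_zero, smul_zero]
      have b2 : (addOrderOf (x i) * d) • (l • w) = 0 := by
        rw [smul_comm _ l, mul_smul, hd, addOrderOf_nsmul_eq_zero, smul_zero, smul_zero]
      rw [b1, b2, sub_self]
    have h5 := Small_cop (Nat.Coprime.mul_right (ht i) htw) h0 h4
    exact sub_eq_zero.mp h5
  set c := t • (l • w) with hc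
  have hc0 : c ≠ 0 := by
    intro h0
    have h4 : d • (l • w) = 0 := by
      rw [smul_comm, hd, addOrderOf_nsmul_eq_zero, smul_zero]
    have h5 := Small_cop htw h0 h4
    have h6 : d ∣ l := addOrderOf_dvd_iff_nsmul_eq_zero.mpr h5
    have := Nat.le_of_dvd hl1 h6
    omega
  have hnc : n • c = 0 := by
    rw [hc, smul_comm n t, smul_comm n l, hnw, smul_zero, smul_zero]
  have hntV : ∀ i, n • (t • (e • x i)) = 0 := by
    intro i
    rw [smul_comm, hnV i, smul_zero]
  have hNR : (1 : ℝ) ≤ N := by exact_mod_cast hN1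
  have hlR : (1 : ℝ) ≤ l := by exact_mod_cast hl1
  have hlDR : (l : ℝ) ≤ D := by exact_mod_cast hlD
  have hordR : 32 * (N : ℝ) * (D : ℝ) ^ 2 ≤ d := by exact_mod_cast hord
  have hdR : (0 : ℝ) < d := by exact_mod_cast hdpos
  have hldR : (l : ℝ) < d := by exact_mod_cast hld
  have hdlR : (0 : ℝ) < (d : ℝ) - l := by linarith
  -- the coefficients
  set f : ι → ℂ := fun i => cf n (t • x i) (t • (e • x i)) c with hf
  set q : ι → ℤ := fun i => (l : ℤ) / K i with hq
  set g : ι → ℂ := fun i => Complex.I * ee (q i • (t • x i)) / (2 * Real.pi * q i) with hg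
  have htot : ‖∑ i, f i‖ ≤ N / (2 * n) := h3 ι x N e n t c hN hRel hn hbad ht
  -- (1)
  have far1 : ∀ j, j ∉ C → ‖f j‖ ≤ 1 / (4 * (4 * N * l)) := by
    intro j hj
    exact h1 n (t • x j) (t • (e • x j)) c (4 * N * l) hn (hntV j) hnc hc0 (by positivity)
      (fun k hk => hno j hj k (hA j k hk))
  -- (2)
  have far2 : ∀ i ∈ C, ¬ K i ∣ (l : ℤ) → ‖f i‖ ≤ ((K i).natAbs : ℝ) / (4 * (d - l)) := by
    intro i hi hKl
    obtain ⟨hK0, hKw⟩ := hK i hi
    have hKpos : (0 : ℝ) < (K i).natAbs := by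
      exact_mod_cast Int.natAbs_pos.mpr hK0
    have := h1 n (t • x i) (t • (e • x i)) c (((d : ℝ) - l) / (K i).natAbs) hn (hntV i) hnc hc0
      (by positivity) ?_
    · refine le_trans this (le_of_eq ?_)
      field_simp
    · intro k hk
      have h4 := hA i k hk
      rw [hKw, smul_smul] at h4
      have h5 : (k * K i - l) • w = 0 := by
        rw [sub_smul, h4, natCast_zsmul, sub_self]
      have h6 : (d : ℤ) ∣ k * K i - l := addOrderOf_dvd_iff_zsmul_eq_zero.mpr h5
      have h7 : k * K i - l ≠ 0 := by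
        intro h0
        exact hKl ⟨k, by linarith⟩
      have h8 : (d : ℤ) ≤ |k * K i - l| :=
        Int.le_of_dvd (abs_pos.mpr h7) ((dvd_abs _ _).mpr h6)
      have h9 : (d : ℤ) ≤ |k| * (K i).natAbs + l := by
        have : |k * K i - l| ≤ |k * K i| + |(l : ℤ)| := abs_sub _ _
        rw [abs_mul, Nat.abs_cast] at this
        rw [Int.natCast_natAbs]
        linarith
      have h10 : (d : ℝ) ≤ |(k : ℝ)| * (K i).natAbs + l := by
        have := (Int.cast_le (R := ℝ)).mpr h9
        push_cast at this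
        rw [Nat.cast_natAbs, Int.cast_abs]
        exact this
      rw [div_le_iff₀ hKpos]
      linarith
  -- orders
  have hordV : ∀ i ∈ C, d ≤ addOrderOf (e • x i) * (K i).natAbs ∧ 0 < addOrderOf (e • x i) := by
    intro i hi
    obtain ⟨hK0, hKw⟩ := hK i hi
    have hpos : 0 < addOrderOf (e • x i) := by
      apply addOrderOf_pos_iff.mpr
      exact isOfFinAddOrder_iff_nsmul_eq_zero.mpr ⟨n, hn, hnV i⟩
    refine ⟨?_, hpos⟩
    have h4 : ((addOrderOf (e • x i) : ℤ) * K i) • w = 0 := by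
      rw [mul_smul, ← hKw, natCast_zsmul, addOrderOf_nsmul_eq_zero]
    have h5 : (d : ℤ) ∣ (addOrderOf (e • x i) : ℤ) * K i := addOrderOf_dvd_iff_zsmul_eq_zero.mpr h4
    have h6 : d ∣ addOrderOf (e • x i) * (K i).natAbs := by
      have := Int.natAbs_dvd_natAbs.mpr h5
      rwa [Int.natAbs_mul, Int.natAbs_natCast, Int.natAbs_natCast] at this
    exact Nat.le_of_dvd (Nat.mul_pos hpos (Int.natAbs_pos.mpr hK0)) h6
  have hto : ∀ i, addOrderOf (t • (e • x i)) = addOrderOf (e • x i) := by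
    intro i
    apply Nat.Coprime.addOrderOf_nsmul
    have : addOrderOf (e • x i) ∣ addOrderOf (x i) := addOrderOf_smul_dvd e
    exact Nat.Coprime.coprime_dvd_left this (ht i).symm
  -- (3)
  have near : ∀ i ∈ C, K i ∣ (l : ℤ) → ‖f i - g i‖ ≤ 5 * ((K i).natAbs : ℝ) / (2 * d) := by
    intro i hi hKl
    obtain ⟨hK0, hKw⟩ := hK i hi
    obtain ⟨ho1, ho2⟩ := hordV i hi
    have hql : q i * K i = l := Int.ediv_mul_cancel hKl
    have hq0 : q i ≠ 0 := by
      intro h0
      rw [h0, zero_mul] at hql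
      omega
    have hqabs : |q i| ≤ l := by
      have h4 : |q i| * |K i| = l := by
        rw [← abs_mul, hql, Nat.abs_cast]
      have h5 : 1 ≤ |K i| := Int.one_le_abs hK0
      nlinarith [abs_nonneg (q i)]
    have ho3 : 2 * D ≤ addOrderOf (e • x i) := by
      have h4 : d ≤ addOrderOf (e • x i) * D := le_trans ho1 (Nat.mul_le_mul_left _ (hKD i hi))
      have h5 : (32 * D) * D ≤ addOrderOf (e • x i) * D := by nlinarith
      have h6 := Nat.le_of_mul_le_mul_right h5 (by omega)
      omega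
    have hcq : c = q i • (t • (e • x i)) := by
      have h4 : q i • (t • (K i • w)) = t • ((q i * K i) • w) := by
        rw [smul_comm (q i) t, smul_smul]
      rw [hKw, h4, hql, natCast_zsmul]
    have := h2 n (t • x i) (t • (e • x i)) (q i) hn (hntV i) hq0 (by
      rw [hto i]
      have : ((2 * D : ℕ) : ℤ) ≤ (addOrderOf (e • x i) : ℤ) := by exact_mod_cast ho3
      push_cast at this
      have hlD' : (l : ℤ) ≤ D := by exact_mod_cast hlD
      linarith)
    rw [← hcq, hto i] at this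
    refine le_trans this ?_
    have ho2R : (0 : ℝ) < addOrderOf (e • x i) := by exact_mod_cast ho2
    rw [div_le_div_iff₀ (by positivity) (by positivity)]
    have : (d : ℝ) ≤ addOrderOf (e • x i) * (K i).natAbs := by exact_mod_cast ho1
    nlinarith
  -- n is large
  have hnD : (N : ℝ) / (2 * n) ≤ N * D / (2 * d) := by
    obtain ⟨ho1, ho2⟩ := hordV i0 hi0
    have h4 : addOrderOf (e • x i0) ≤ n :=
      Nat.le_of_dvd hn (addOrderOf_dvd_iff_nsmul_eq_zero.mpr (hnV i0))
    have h5 : d ≤ n * D := le_trans ho1 (Nat.mul_le_mul h4 (hKD i0 hi0))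
    have h6 : (d : ℝ) ≤ n * D := by exact_mod_cast h5
    have hnR : (0 : ℝ) < n := by exact_mod_cast hn
    rw [div_le_div_iff₀ (by positivity) (by positivity)]
    nlinarith
  -- sums
  set S := ∑ i ∈ C with K i ∣ (l : ℤ), (K i : ℂ) * ee (((l : ℤ) / K i) • (t • x i)) with hS
  have hpi0 : (Real.pi : ℂ) ≠ 0 := by exact_mod_cast Real.pi_ne_zero
  have hl0 : (l : ℂ) ≠ 0 := by
    exact_mod_cast (by omega : l ≠ 0)
  have hmain : Complex.I / (2 * Real.pi * l) * S = ∑ i ∈ C with K i ∣ (l : ℤ), g i := by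
    rw [hS, Finset.mul_sum]
    apply Finset.sum_congr rfl
    intro i hi
    rw [Finset.mem_filter] at hi
    have hql : q i * K i = l := Int.ediv_mul_cancel hi.2
    have hq0 : q i ≠ 0 := by
      intro h0
      rw [h0, zero_mul] at hql
      omega
    have hqC : (q i : ℂ) ≠ 0 := by exact_mod_cast hq0
    have hqlC : (q i : ℂ) * K i = l := by exact_mod_cast hql
    simp only [hg]
    rw [← hqlC]
    have hKC : (K i : ℂ) ≠ 0 := by
      exact_mod_cast (hK i hi.1).1
    rw [hq]
    field_simp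
  have hsplit : ∑ i, f i = (∑ i ∈ C with K i ∣ (l : ℤ), f i) +
      (∑ i ∈ C with ¬ K i ∣ (l : ℤ), f i) + ∑ i ∈ univ \ C, f i := by
    rw [Finset.sum_filter_add_sum_filter_not, add_comm]
    exact (Finset.sum_sdiff (Finset.subset_univ C)).symm
  have hSeq : ∑ i ∈ C with K i ∣ (l : ℤ), g i = ∑ i, f i -
      (∑ i ∈ C with K i ∣ (l : ℤ), (f i - g i)) - (∑ i ∈ C with ¬ K i ∣ (l : ℤ), f i) -
      ∑ i ∈ univ \ C, f i := by
    rw [Finset.sum_sub_distrib, hsplit]
    ring
  have b1 : ‖∑ i ∈ C with K i ∣ (l : ℤ), (f i - g i)‖ ≤ 5 * (D : ℝ) / (2 * d) := by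
    calc ‖∑ i ∈ C with K i ∣ (l : ℤ), (f i - g i)‖
        ≤ ∑ i ∈ C with K i ∣ (l : ℤ), 5 * ((K i).natAbs : ℝ) / (2 * d) := by
          apply norm_sum_le_of_le
          intro i hi
          rw [Finset.mem_filter] at hi
          exact near i hi.1 hi.2
      _ ≤ ∑ i ∈ C, 5 * ((K i).natAbs : ℝ) / (2 * d) := by
          apply Finset.sum_le_sum_of_subset_of_nonneg (Finset.filter_subset _ _)
          intro i _ _
          positivity
      _ = 5 * (D : ℝ) / (2 * d) := by
          rw [← Finset.sum_div, ← Finset.mul_sum, ← hD]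
          push_cast
          rfl
  have b2 : ‖∑ i ∈ C with ¬ K i ∣ (l : ℤ), f i‖ ≤ (D : ℝ) / (4 * (d - l)) := by
    calc ‖∑ i ∈ C with ¬ K i ∣ (l : ℤ), f i‖
        ≤ ∑ i ∈ C with ¬ K i ∣ (l : ℤ), ((K i).natAbs : ℝ) / (4 * (d - l)) := by
          apply norm_sum_le_of_le
          intro i hi
          rw [Finset.mem_filter] at hi
          exact far2 i hi.1 hi.2
      _ ≤ ∑ i ∈ C, ((K i).natAbs : ℝ) / (4 * (d - l)) := by
          apply Finset.sum_le_sum_of_subset_of_nonneg (Finset.filter_subset _ _)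
          intro i _ _
          positivity
      _ = (D : ℝ) / (4 * (d - l)) := by
          rw [← Finset.sum_div, ← hD]
          push_cast
          rfl
  have b3 : ‖∑ i ∈ univ \ C, f i‖ ≤ (N - 1) * (1 / (4 * (4 * N * l))) := by
    have hcard2 : ((univ \ C).card : ℝ) ≤ N - 1 := by
      have h4 : (univ \ C).card + 1 ≤ N := by
        have h5 : (univ \ C).card < (univ : Finset ι).card := by
          apply Finset.card_lt_card
          rw [Finset.ssubset_iff_of_subset (Finset.sdiff_subset)]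
          exact ⟨i0, Finset.mem_univ _, fun h => (Finset.mem_sdiff.mp h).2 hi0⟩
        rw [Finset.card_univ] at h5
        omega
      have : (((univ \ C).card + 1 : ℕ) : ℝ) ≤ N := by exact_mod_cast h4
      push_cast at this
      linarith
    calc ‖∑ i ∈ univ \ C, f i‖ ≤ ∑ i ∈ univ \ C, (1 / (4 * (4 * N * l)) : ℝ) := by
          apply norm_sum_le_of_le
          intro i hi
          exact far1 i (Finset.mem_sdiff.mp hi).2
      _ = (univ \ C).card * (1 / (4 * (4 * N * l))) := by
          rw [Finset.sum_const, nsmul_eq_mul]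
      _ ≤ (N - 1) * (1 / (4 * (4 * N * l))) := by
          apply mul_le_mul_of_nonneg_right hcard2
          positivity
  have hnorm : ‖Complex.I / (2 * Real.pi * l) * S‖ ≤ N * D / (2 * d) + 5 * D / (2 * d) +
      D / (4 * (d - l)) + (N - 1) * (1 / (4 * (4 * N * l))) := by
    rw [hmain, hSeq]
    refine le_trans (norm_sub_le _ _) ?_
    refine add_le_add (le_trans (norm_sub_le _ _) ?_) b3
    refine add_le_add (le_trans (norm_sub_le _ _) ?_) b2
    exact add_le_add (le_trans htot hnD) b1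
  have hnS : ‖S‖ = 2 * Real.pi * l * ‖Complex.I / (2 * Real.pi * l) * S‖ := by
    rw [norm_mul, norm_div, Complex.norm_I, norm_mul, norm_mul, Complex.norm_two,
      Complex.norm_real, Complex.norm_natCast, Real.norm_of_nonneg Real.pi_pos.le]
    have hpiR := Real.pi_pos
    field_simp
  rw [hnS]
  refine lt_of_le_of_lt (mul_le_mul_of_nonneg_left hnorm (by positivity)) ?_
  exact Small_real N D l d hNR hlR hlDR hordR

end Pool.Agent.FC
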