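import Pool.Agent.Lib.MP_640417_ag.FC.SpecCore

/-!
# FE, module Step: one step of the core lemma
-/

set_option autoImplicit false

noncomputable section

open Finset

open scoped Classical

namespace Pool.Agent.FC

private theorem Step_ord_le {A : Type} [AddCommGroup A] {y : A} {g : ℕ} (hg : 0 < g)
    (hy : IsOfFinAddOrder y) : addOrderOf y ≤ g * addOrderOf (g • y) := by
  have h1 : (g * addOrderOf (g • y)) • y = 0 := by
    rw [mul_comm, mul_nsmul', addOrderOf_nsmul_eq_zero]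
  have h2 : IsOfFinAddOrder (g • y) := hy.nsmul
  have h3 := h2.addOrderOf_pos
  exact Nat.le_of_dvd (by positivity) (addOrderOf_dvd_iff_nsmul_eq_zero.2 h1)

private theorem Step_ord_zsmul {A : Type} [AddCommGroup A] {y : A} (k : ℤ)
    (hy : IsOfFinAddOrder y) : addOrderOf (k • y) ≤ addOrderOf y := by
  refine Nat.le_of_dvd hy.addOrderOf_pos ?_
  rw [addOrderOf_dvd_iff_nsmul_eq_zero, smul_comm, addOrderOf_nsmul_eq_zero, smul_zero]

/-- S_Step -/
theorem t_Step (h1 : S_FamC) (h2 : S_Cyc) (h3 : S_Num) : S_Step := by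
  intro ι _ x N e g c w K i0 hcard hfin hrel hord hprog hst
  by_cases hleft : ∃ (C : Finset ι) (K' : ι → ℤ), C.Nonempty ∧ Fam C K' x ∧
      ∑ i ∈ C, |K' i| ≤ 2 ^ (N - 1)
  · exact Or.inl hleft
  right
  set L : Finset ι := univ.image c with hL
  set P : ℕ := ∏ a ∈ L, DD c K a with hP
  have hN : 1 ≤ N := le_trans (Fintype.card_pos_iff.2 ⟨i0⟩) hcard
  have hmem : ∀ i, c i ∈ L := fun i => mem_image_of_mem c (mem_univ i)
  have hterm : ∀ i, (K i).natAbs ≤ DD c K (c i) := by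
    intro i
    unfold DD
    exact single_le_sum (f := fun i => (K i).natAbs) (fun _ _ => Nat.zero_le _)
      (mem_filter.2 ⟨mem_univ i, rfl⟩)
  have hDpos : ∀ a ∈ L, 1 ≤ DD c K a := by
    intro a ha
    obtain ⟨i, -, rfl⟩ := mem_image.1 ha
    exact le_trans (Int.natAbs_pos.2 (hst.K0 i)) (hterm i)
  have hPpos : 0 < P := prod_pos fun a ha => hDpos a ha
  have hDP : ∀ a ∈ L, DD c K a ≤ P := fun a ha =>
    Nat.le_of_dvd hPpos (dvd_prod_of_mem _ ha)
  have hLcard : 1 ≤ L.card := card_pos.2 ⟨c i0, hmem i0⟩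
  have hLN : L.card ≤ N := le_trans card_image_le hcard
  have hgP : g * P ≤ 2 ^ (N - 1) := by
    have e1 : N - L.card ≤ N - 1 := by omega
    exact le_trans hst.hg (Nat.pow_le_pow_right two_pos e1)
  have hg0 := hst.g0
  have hgle : g ≤ 2 ^ (N - 1) := le_trans (Nat.le_mul_of_pos_right g hPpos) hgP
  have hPle : P ≤ 2 ^ (N - 1) := le_trans (Nat.le_mul_of_pos_left P hg0) hgP
  obtain ⟨n, hn0, hn, hbad⟩ := hprog g hg0 hgle
  have hnw : ∀ i, n • w (c i) = 0 := hst.hw n hn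
  have hnL : ∀ a ∈ L, n • w a = 0 := by
    intro a ha
    obtain ⟨i, -, rfl⟩ := mem_image.1 ha
    exact hnw i
  have hfw : ∀ a ∈ L, IsOfFinAddOrder (w a) := fun a ha =>
    isOfFinAddOrder_iff_nsmul_eq_zero.2 ⟨n, hn0, hnL a ha⟩
  -- the order of the first generator
  set a0 : ι := c i0 with ha0
  set W : ℕ := addOrderOf (w a0) with hW
  have hWbig : (32 * N) ^ N < g * W := by
    have e1 : IsOfFinAddOrder (e • x i0) := (hfin i0).nsmul
    have e2 := Step_ord_le hg0 e1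
    have e3 : g • (e • x i0) = K i0 • w a0 := by
      rw [← hst.hV i0, mul_nsmul']
    rw [e3] at e2
    have e4 := Step_ord_zsmul (K i0) (hfw a0 (hmem i0))
    calc (32 * N) ^ N < addOrderOf (e • x i0) := hord
      _ ≤ g * addOrderOf (K i0 • w a0) := e2
      _ ≤ g * W := Nat.mul_le_mul_left g e4
  have hP2 : P ^ 2 ≤ 4 ^ (N - 1) := by
    calc P ^ 2 ≤ (2 ^ (N - 1)) ^ 2 := Nat.pow_le_pow_left hPle 2
      _ = 4 ^ (N - 1) := by rw [← pow_mul, mul_comm, pow_mul]; norm_num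
  set T : ℕ := W / P with hT
  have hTP : T * P ≤ W := Nat.div_mul_le_self W P
  have hbig : ∀ Z : ℕ, g * P * Z ≤ (32 * N) ^ N → Z ≤ T := by
    intro Z hZ
    rw [hT, Nat.le_div_iff_mul_le hPpos]
    have e1 : g * (Z * P) < g * W := by
      calc g * (Z * P) = g * P * Z := by ring
        _ ≤ (32 * N) ^ N := hZ
        _ < g * W := hWbig
    exact (Nat.lt_of_mul_lt_mul_left e1).le
  have hT1 : (4 * N) ^ N * P ^ 2 + P < T := by
    have e1 := hbig ((4 * N) ^ N * P ^ 2 + P + 1) (by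
      refine le_trans (Nat.mul_le_mul hgP ?_) (h3 N hN).1
      have e2 : (4 * N) ^ N * P ^ 2 ≤ (4 * N) ^ N * 4 ^ (N - 1) := Nat.mul_le_mul_left _ hP2
      omega)
    omega
  have hT2 : 32 * N * P ^ 2 ≤ T :=
    hbig _ (le_trans (Nat.mul_le_mul hgP (Nat.mul_le_mul_left _ hP2)) (h3 N hN).2)
  have key := h2 UnitAddCircle ι L (DD c K) w N P T a0 hN hLN hDpos hP.symm (hmem i0)
    (hfw a0 (hmem i0)) hTP hT1 (by
    intro a ha hTa
    set C : Finset ι := univ.filter (fun i => c i = a) with hC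
    have hnof : ¬ ∀ l : ℕ, 1 ≤ l → l ≤ DD c K a → ∀ j, j ∉ C → ∀ k : ℤ,
        k • ((g * e) • x j) = l • w a → 4 * N * (l : ℝ) ≤ |(k : ℝ)| := by
      intro hall
      apply hleft
      have hCne : C.Nonempty := by
        obtain ⟨i, -, hi⟩ := mem_image.1 ha
        exact ⟨i, mem_filter.2 ⟨mem_univ i, hi⟩⟩
      refine ⟨C, K, hCne, ?_, ?_⟩
      · refine h1 ι x N (g * e) n C (w a) K (DD c K a) hfin hcard hrel hn0 hn (hnL a ha) hbad hCne
          ?_ rfl ?_ hall
        · intro i hi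
          refine ⟨hst.K0 i, ?_⟩
          rw [← (mem_filter.1 hi).2]
          exact hst.hV i
        · refine le_trans ?_ (le_trans hT2 hTa)
          exact Nat.mul_le_mul_left _ (Nat.pow_le_pow_left (hDP a ha) 2)
      · have e1 : ∑ i ∈ C, |K i| = ((DD c K a : ℕ) : ℤ) := by
          unfold DD
          push_cast
          rfl
        rw [e1]
        have e2 : DD c K a ≤ 2 ^ (N - 1) := le_trans (hDP a ha) hPle
        exact_mod_cast e2
    push Not at hnof
    obtain ⟨l, hl1, hlD, j, hj, k, hk, hlt⟩ := hnof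
    have hjb : c j ≠ a := fun h => hj (mem_filter.2 ⟨mem_univ j, h⟩)
    have heq : l • w a = (k * K j) • w (c j) := by
      rw [← hk, hst.hV j, mul_zsmul']
      rw [smul_comm]
    have hk0 : k ≠ 0 := by
      intro h0
      rw [h0, zero_smul] at hk
      have e1 := Nat.le_of_dvd (by omega) (addOrderOf_dvd_iff_nsmul_eq_zero.2 hk.symm)
      have e2 := hDP a ha
      have e3 : P < T := by omega
      omega
    refine ⟨c j, hmem j, hjb, l, k * K j, hl1, hlD, mul_ne_zero hk0 (hst.K0 j), ?_, heq⟩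
    rw [Int.natAbs_mul]
    have e1 : k.natAbs ≤ 4 * N * DD c K a := by
      have e2 : ((k.natAbs : ℕ) : ℝ) ≤ ((4 * N * l : ℕ) : ℝ) := by
        rw [Nat.cast_natAbs, Int.cast_abs]
        push_cast
        exact hlt.le
      have e3 : k.natAbs ≤ 4 * N * l := by exact_mod_cast e2
      exact le_trans e3 (Nat.mul_le_mul_left _ hlD)
    exact Nat.mul_le_mul e1 (hterm j))
  obtain ⟨p, hp, q, hq, hpq, l, k, hl1, hlD, hk0, hkD, heq⟩ := key
  exact ⟨p, q, l, k, hp, hq, hpq, hl1, hlD, hk0, hkD, heq⟩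

end Pool.Agent.FC
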