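import Pool.Agent.Lib.MP_640417_ag.FC.SpecCore

/-! # FE: the sum of all coefficients (`S_Tot`) -/

noncomputable section

open Finset

open scoped Classical

namespace Pool.Agent.FC

theorem t_Tot (h1 : S_SwAbs) : S_Tot := by
  intro ι _ x N e n t c hN hRel hn hbad ht
  set G : ℕ → ℝ := fun s => ∑ i, sw ((t * (1 + e * s)) • x i) with hG
  have hG0 : ∀ s, (∀ i, (1 + e * s).Coprime (addOrderOf (x i))) → G s = 0 := by
    intro s hs
    exact hRel (t * (1 + e * s)) (fun i => Nat.Coprime.mul_left (ht i) (hs i))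
  have hGN : ∀ s, |G s| ≤ N / 2 := by
    intro s
    calc |G s| ≤ ∑ i, |sw ((t * (1 + e * s)) • x i)| := Finset.abs_sum_le_sum_abs _ _
      _ ≤ ∑ _i : ι, (1 / 2 : ℝ) := Finset.sum_le_sum fun i _ => h1 _
      _ = Fintype.card ι * (1 / 2) := by rw [Finset.sum_const, nsmul_eq_mul, Finset.card_univ]
      _ ≤ N / 2 := by
        have : (Fintype.card ι : ℝ) ≤ N := by exact_mod_cast hN
        linarith
  have harg : ∀ i s, t • x i + s • (t • (e • x i)) = (t * (1 + e * s)) • x i := by
    intro i s
    rw [smul_smul, smul_smul, ← add_smul]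
    congr 1
    ring
  have hnR : (0 : ℝ) < n := by exact_mod_cast hn
  have e1 : ∑ i, cf n (t • x i) (t • (e • x i)) c =
      (∑ s ∈ range n, (G s : ℂ) * ee (-(s • c))) / n := by
    unfold cf
    rw [← Finset.sum_div, Finset.sum_comm]
    congr 1
    apply Finset.sum_congr rfl
    intro s _
    rw [← Finset.sum_mul]
    congr 1
    rw [hG]
    push_cast
    apply Finset.sum_congr rfl
    intro i _
    rw [harg i s]
  rw [e1, norm_div, Complex.norm_natCast, div_le_div_iff₀ hnR (by positivity)]
  have e2 : ‖∑ s ∈ range n, (G s : ℂ) * ee (-(s • c))‖ ≤ N / 2 := by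
    have e3 : ∑ s ∈ range n, (G s : ℂ) * ee (-(s • c)) =
        ∑ s ∈ (range n).filter (fun s => ¬ ∀ i, (1 + e * s).Coprime (addOrderOf (x i))),
          (G s : ℂ) * ee (-(s • c)) := by
      rw [Finset.sum_filter]
      apply Finset.sum_congr rfl
      intro s _
      by_cases hs : ∀ i, (1 + e * s).Coprime (addOrderOf (x i))
      · rw [if_neg (not_not.mpr hs), hG0 s hs]
        simp
      · rw [if_pos hs]
    rw [e3]
    have hNN : (0 : ℝ) ≤ N / 2 := by positivity
    calc ‖∑ s ∈ (range n).filter (fun s => ¬ ∀ i, (1 + e * s).Coprime (addOrderOf (x i))),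
          (G s : ℂ) * ee (-(s • c))‖
        ≤ ∑ s ∈ (range n).filter (fun s => ¬ ∀ i, (1 + e * s).Coprime (addOrderOf (x i))),
          ((N : ℝ) / 2) := by
          apply norm_sum_le_of_le
          intro s _
          rw [norm_mul, norm_ee, mul_one, Complex.norm_real, Real.norm_eq_abs]
          exact hGN s
      _ = (bad x e n : ℝ) * (N / 2) := by rw [Finset.sum_const, nsmul_eq_mul]; rfl
      _ ≤ 1 * (N / 2) := by
          apply mul_le_mul_of_nonneg_right _ hNN
          exact_mod_cast hbad
      _ = N / 2 := one_mul _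
  nlinarith

end Pool.Agent.FC
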