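import Pool.Agent.Lib.MP_640417_ag.FC.SpecCore

/-! # FE: Vandermonde (`S_Van`) -/

noncomputable section

open Finset

open scoped Classical

namespace Pool.Agent.FC

theorem t_Van (h1 : S_Roots) : S_Van := by
  intro ι C K x hK hS y0
  choose! R hR using fun i (hi : i ∈ C) => h1 (K i) (x i) (hK i hi)
  set U : Finset UnitAddCircle := C.biUnion R with hU
  set mu : UnitAddCircle → ℤ := fun y => ∑ i ∈ C with K i • y = x i, (K i).sign with hmu
  by_cases hy0 : y0 ∈ U
  swap
  · apply Finset.sum_eq_zero
    intro i hi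
    rw [Finset.mem_filter] at hi
    exact absurd (Finset.mem_biUnion.mpr ⟨i, hi.1, ((hR i hi.1).2.1 y0).mpr hi.2⟩) hy0
  have hcard : U.card ≤ ∑ i ∈ C, (K i).natAbs := by
    refine le_trans Finset.card_biUnion_le ?_
    apply Finset.sum_le_sum
    intro i hi
    exact (hR i hi).1.le
  have key : ∀ l : ℕ, 1 ≤ l → l ≤ ∑ i ∈ C, (K i).natAbs →
      ∑ y ∈ U, (mu y : ℂ) * ee y ^ l = 0 := by
    intro l hl1 hl2
    rw [← hS l hl1 hl2]
    have e1 : ∀ y ∈ U, (mu y : ℂ) * ee y ^ l =
        ∑ i ∈ C, if K i • y = x i then ((K i).sign : ℂ) * ee ((l : ℤ) • y) else 0 := by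
      intro y _
      rw [← Finset.sum_filter, ← Finset.sum_mul, ee_zsmul, zpow_natCast]
      simp only [hmu]
      push_cast
      rfl
    rw [Finset.sum_congr rfl e1, Finset.sum_comm, Finset.sum_filter]
    apply Finset.sum_congr rfl
    intro i hi
    rw [← Finset.sum_filter]
    have e2 : U.filter (fun y => K i • y = x i) = R i := by
      ext y
      rw [Finset.mem_filter, (hR i hi).2.1 y]
      constructor
      · exact fun h => h.2
      · intro h
        exact ⟨Finset.mem_biUnion.mpr ⟨i, hi, ((hR i hi).2.1 y).mpr h⟩, h⟩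
    rw [e2, ← Finset.mul_sum, (hR i hi).2.2 l]
    by_cases hd : K i ∣ (l : ℤ)
    · rw [if_pos hd, if_pos hd, ← mul_assoc]
      congr 1
      have h5 : (K i).sign * ((K i).natAbs : ℤ) = K i := Int.sign_mul_natAbs (K i)
      have h6 := congrArg (Int.cast : ℤ → ℂ) h5
      rw [Int.cast_mul, Int.cast_natCast] at h6
      exact h6
    · rw [if_neg hd, if_neg hd, mul_zero]
  -- Vandermonde
  let E := U.equivFin
  have hinj : Function.Injective (fun j : Fin U.card => ee (E.symm j : UnitAddCircle)) := by
    intro a b hab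
    exact E.symm.injective (Subtype.ext (ee_inj hab))
  have hv := Matrix.eq_zero_of_forall_pow_sum_mul_pow_eq_zero (R := ℂ)
    (f := fun j : Fin U.card => ee (E.symm j : UnitAddCircle))
    (v := fun j : Fin U.card => (mu (E.symm j : UnitAddCircle) : ℂ) * ee (E.symm j : UnitAddCircle))
    hinj (by
      intro j
      have h2 := key (j + 1) (by omega) (by
        have := j.2
        omega)
      rw [← h2, ← Finset.sum_coe_sort U]
      rw [← E.symm.sum_comp (fun y : U => (mu (y : UnitAddCircle) : ℂ) * ee (y : UnitAddCircle) ^ ((j : ℕ) + 1))]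
      apply Finset.sum_congr rfl
      intro a _
      rw [mul_assoc, ← pow_succ'])
  have h3 := congrFun hv (E ⟨y0, hy0⟩)
  simp only [Equiv.symm_apply_apply, Pi.zero_apply] at h3
  rcases mul_eq_zero.mp h3 with h4 | h4
  · exact_mod_cast h4
  · exact absurd h4 (ee_ne_zero y0)

end Pool.Agent.FC
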