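import Pool.Agent.Lib.MP_640417_ag.FC.SpecCore

/-!
# FE, module Near: the main term of a coefficient
-/

noncomputable section

open Finset

open scoped Classical

namespace Pool.Agent.FC

theorem t_Near (h1 : S_CoefExact) (h2 : S_Est) (h3 : S_Period) : S_Near := by
  intro n x V k hn hnV hk hkd
  obtain ⟨d, hd⟩ : ∃ d, d = addOrderOf V := ⟨_, rfl⟩
  have hkpos : 0 < |k| := abs_pos.mpr hk
  have hd0 : 0 < d := by
    have : 0 < (addOrderOf V : ℤ) := by linarith
    rw [← hd] at this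
    exact_mod_cast this
  have hdV : d • V = 0 := by rw [hd]; exact addOrderOf_nsmul_eq_zero V
  have hdk : d • (k • V) = 0 := by
    rw [smul_comm, hdV, smul_zero]
  have hnk : n • (k • V) = 0 := by
    rw [smul_comm, hnV, smul_zero]
  have hcf := (h3 n x V (k • V) hn hnV hnk).1 (by rw [← hd]; exact hdk)
  rw [← hd] at hcf hkd
  have hndvd : ¬ (d : ℤ) ∣ k := by
    intro h
    have := Int.le_of_dvd hkpos ((dvd_abs _ _).mpr h)
    linarith
  obtain ⟨z, hz0, hz1, hz⟩ := h1 d hd0 V x hd.symm k hndvd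
  have hdR : (0 : ℝ) < d := by exact_mod_cast hd0
  have hkR : (k : ℝ) ≠ 0 := by exact_mod_cast hk
  have hpi := Real.pi_pos
  obtain ⟨p, hp⟩ : ∃ p : ℝ, p = 2 * Real.pi * k / d := ⟨_, rfl⟩
  have hp0 : p ≠ 0 := by
    rw [hp]
    exact div_ne_zero (mul_ne_zero (mul_ne_zero two_ne_zero hpi.ne') hkR) hdR.ne'
  have hkdR : 2 * |(k : ℝ)| ≤ d := by exact_mod_cast hkd
  have hpp : |p| ≤ Real.pi := by
    rw [hp, abs_div, abs_mul, abs_of_pos (by positivity : (0 : ℝ) < 2 * Real.pi),
      abs_of_pos hdR, div_le_iff₀ hdR]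
    nlinarith
  have hest := (h2 p (z * d) hp0 hpp (by positivity) (by
    rw [lt_div_iff₀ hdR] at hz1
    exact hz1)).1
  have hA : ee (k • (x - (z : UnitAddCircle))) =
      ee (k • x) * Complex.exp (-((p * (z * d) : ℝ) : ℂ) * Complex.I) := by
    have e1 : k • (x - (z : UnitAddCircle)) = k • x + ((-(k * z) : ℝ) : UnitAddCircle) := by
      rw [smul_sub, sub_eq_add_neg]
      congr 1
      have : ((-(k * z) : ℝ) : UnitAddCircle) = -(((k : ℤ) • z : ℝ) : UnitAddCircle) := by
        rw [zsmul_eq_mul]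
        rfl
      rw [this]
      rfl
    rw [e1, ee_add, ee_coe]
    congr 2
    rw [hp]
    have hd' : (d : ℂ) ≠ 0 := by exact_mod_cast hd0.ne'
    push_cast
    field_simp
  have hB : ee ((-(k : ℝ) / d : ℝ) : UnitAddCircle) =
      Complex.exp (-(p : ℂ) * Complex.I) := by
    rw [ee_coe, hp]
    congr 1
    push_cast
    ring
  rw [hcf, hz, hA, hB]
  have hd' : (d : ℂ) ≠ 0 := by exact_mod_cast hd0.ne'
  have hk' : (k : ℂ) ≠ 0 := by exact_mod_cast hk
  have hpi' : (Real.pi : ℂ) ≠ 0 := by exact_mod_cast hpi.ne'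
  have hC : ee (k • x) * Complex.exp (-((p * (z * d) : ℝ) : ℂ) * Complex.I) /
      ((d : ℂ) * (Complex.exp (-(p : ℂ) * Complex.I) - 1)) -
      Complex.I * ee (k • x) / (2 * Real.pi * k) =
      ee (k • x) / d * (Complex.exp (-((p * (z * d) : ℝ) : ℂ) * Complex.I) /
        (Complex.exp (-(p : ℂ) * Complex.I) - 1) - Complex.I / (p : ℂ)) := by
    have hpc : (p : ℂ) = 2 * Real.pi * k / d := by
      rw [hp]
      push_cast
      rfl
    have hI : Complex.I * ee (k • x) / (2 * Real.pi * k) =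
        ee (k • x) / d * (Complex.I / (p : ℂ)) := by
      rw [hpc]
      field_simp
    rw [hI, mul_div_mul_comm, ← mul_sub]
  rw [hC, norm_mul, norm_div, norm_ee, Complex.norm_natCast]
  calc 1 / (d : ℝ) * ‖Complex.exp (-((p * (z * d) : ℝ) : ℂ) * Complex.I) /
        (Complex.exp (-(p : ℂ) * Complex.I) - 1) - Complex.I / (p : ℂ)‖
      ≤ 1 / (d : ℝ) * (5 / 2) := by
        apply mul_le_mul_of_nonneg_left hest (by positivity)
    _ = 5 / (2 * (addOrderOf V : ℝ)) := by
        rw [← hd]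
        field_simp

end Pool.Agent.FC
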