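import Pool.Agent.Lib.MP_640417_ag.FC.SpecCore

/-!
# FE: the numerical inequality
-/

set_option autoImplicit false

noncomputable section

open Finset

open scoped Classical

namespace Pool.Agent.FC

theorem t_Num : S_Num := by
  intro N hN
  obtain ⟨k, rfl⟩ : ∃ k, N = k + 1 := ⟨N - 1, by omega⟩
  rw [Nat.add_sub_cancel]
  have e1 : (32 * (k + 1)) ^ (k + 1) = 8 ^ (k + 1) * (4 * (k + 1)) ^ (k + 1) := by
    rw [← mul_pow]
    have : 32 * (k + 1) = 8 * (4 * (k + 1)) := by ring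
    rw [this]
  have h1 : 4 * (k + 1) ≤ (4 * (k + 1)) ^ (k + 1) := Nat.le_self_pow (by omega) _
  have e2 : (8 : ℕ) ^ (k + 1) = 2 ^ k * 4 ^ k * 8 := by
    rw [pow_succ, ← mul_pow]
    norm_num
  have h2 : (1 : ℕ) ≤ 2 ^ k := Nat.one_le_two_pow
  have h4 : (1 : ℕ) ≤ 4 ^ k := Nat.one_le_pow _ _ (by norm_num)
  have h24 : (2 : ℕ) ^ k ≤ 4 ^ k := Nat.pow_le_pow_left (by norm_num) k
  rw [e1, e2]
  generalize (4 * (k + 1)) ^ (k + 1) = a at h1 ⊢
  generalize (2 : ℕ) ^ k = b at h2 h24 ⊢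
  generalize (4 : ℕ) ^ k = c at h4 h24 ⊢
  have ha : 4 ≤ a := by omega
  constructor
  · have h5 : b * (b + 1) ≤ b * c * 2 := by
      have : b + 1 ≤ c * 2 := by omega
      calc b * (b + 1) ≤ b * (c * 2) := Nat.mul_le_mul_left _ this
        _ = b * c * 2 := by ring
    have h6 : b * c * 2 ≤ b * c * a * 7 := by
      have : 2 ≤ a * 7 := by omega
      calc b * c * 2 ≤ b * c * (a * 7) := Nat.mul_le_mul_left _ this
        _ = b * c * a * 7 := by ring
    calc b * (a * c + b + 1) = b * c * a + b * (b + 1) := by ring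
      _ ≤ b * c * a + b * c * a * 7 := by omega
      _ = b * c * 8 * a := by ring
  · calc b * (32 * (k + 1) * c) = b * c * 8 * (4 * (k + 1)) := by ring
      _ ≤ b * c * 8 * a := Nat.mul_le_mul_left _ h1

end Pool.Agent.FC
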