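import Pool.Agent.Lib.MP_640417_ag.FC.SpecCore

noncomputable section

open Finset

open scoped Classical

namespace Pool.Agent.FC

theorem t_SwAbs : S_SwAbs := by
  intro x
  have h := (AddCircle.equivIco 1 0 x).2
  have h1 : (0 : ℝ) ≤ (AddCircle.equivIco 1 0 x : ℝ) := h.1
  have h2 : (AddCircle.equivIco 1 0 x : ℝ) < 0 + 1 := h.2
  unfold sw
  rw [abs_le]
  constructor <;> linarith

end Pool.Agent.FC
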